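import Pool.Agent.Helper31.Del.Base0
import Pool.Agent.Helper65.Delone.A

/-! The base lemma: windows, restriction to the span, common fixed points. -/

namespace Pool.Agent.Helper31.Del

open Module
open scoped RealInnerProductSpace

variable {E : Type*} [NormedAddCommGroup E] [InnerProductSpace ℝ E]

theorem plateau (f : ℕ → ℕ) (hf : Monotone f) (B : ℕ) (hB : f (B + 1) ≤ B) :
    ∃ j ≤ B, f j = f (j + 1) := by
  by_contra hcon
  push Not at hcon
  have h1 : ∀ j ≤ B + 1, j ≤ f j := by
    intro j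
    induction j with
    | zero => intro _; omega
    | succ n ih =>
      intro hn
      have h2 := ih (by omega)
      have h3 := hcon n (by omega)
      have h4 := hf (Nat.le_succ n)
      simp only [Nat.succ_eq_add_one] at h4
      omega
  have := h1 (B + 1) le_rfl
  omega

theorem exists_restrict [FiniteDimensional ℝ E] (U : Submodule ℝ E) (A : E ≃ₗᵢ[ℝ] E) (z c : E)
    (hU : ∀ v ∈ U, A v ∈ U) (h0 : c + A (z - c) - z ∈ U) :
    ∃ a : U ≃ᵃⁱ[ℝ] U, ∀ v : U, z + (a v : E) = c + A (z + v - c) := by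
  let B : U →ₗᵢ[ℝ] U :=
    { toLinearMap := (A.toLinearEquiv.toLinearMap.restrict hU)
      norm_map' := fun v => A.norm_map v }
  let Be : U ≃ₗᵢ[ℝ] U := B.toLinearIsometryEquiv rfl
  have hBe : ∀ v : U, ((Be v : U) : E) = A v := fun v => rfl
  let w : U := ⟨_, h0⟩
  refine ⟨Be.toAffineIsometryEquiv.trans (AffineIsometryEquiv.constVAdd ℝ U w), fun v => ?_⟩
  have h1 : (Be.toAffineIsometryEquiv.trans (AffineIsometryEquiv.constVAdd ℝ U w)) v =
      w + Be v := rfl
  rw [h1, Submodule.coe_add, hBe]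
  have h2 : c + A (z + v - c) = c + A (z - c) + A v := by
    have h3 : z + (v : E) - c = (z - c) + v := by abel
    rw [h3, map_add]; abel
  rw [h2]
  change z + (c + A (z - c) - z + A v) = _
  abel

/-- facts on a restricted symmetry -/
theorem restrict_facts [FiniteDimensional ℝ E] {X : Set E} {U : Submodule ℝ E} {A : E ≃ₗᵢ[ℝ] E}
    {z c : E} {θ κ : ℝ} (hc : ‖c - z‖ ≤ 2) (hA : Nr A θ) (hθ : 0 ≤ θ)
    (ho : ∃ n : ℕ, 0 < n ∧ A ^ n = 1)
    (hX : ∀ p ∈ X, ‖p - z‖ ≤ κ → c + A (p - c) ∈ X ∧ c + A.symm (p - c) ∈ X)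
    {a : U ≃ᵃⁱ[ℝ] U} (ha : ∀ v : U, z + (a v : E) = c + A (z + v - c)) :
    ANr a (2 * θ) ∧ Good {v : U | z + (v : E) ∈ X} κ a ∧
      (∃ n : ℕ, 0 < n ∧ a.linearIsometryEquiv ^ n = 1) ∧ ∃ c' : U, ‖c' - 0‖ ≤ 2 ∧ a c' = c' := by
  have hlin : ∀ v : U, ((a.linearIsometryEquiv v : U) : E) = A v := by
    intro v
    have h1 := aff_apply_zero a v
    have h2 : ((a v : U) : E) = (a.linearIsometryEquiv v : U) + (a 0 : U) := by
      rw [h1, Submodule.coe_add]
    have h3 := ha v
    have h4 := ha 0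
    rw [h2] at h3
    have h5 : (z + (v : E) - c) = (z + ((0 : U) : E) - c) + v := by
      rw [Submodule.coe_zero]; abel
    rw [h5, map_add] at h3
    calc ((a.linearIsometryEquiv v : U) : E)
        = (z + (((a.linearIsometryEquiv v : U) : E) + ((a 0 : U) : E))) - (z + ((a 0 : U) : E)) := by
          abel
      _ = (c + (A (z + ((0 : U) : E) - c) + A v)) - (c + A (z + ((0 : U) : E) - c)) := by
          rw [h3, h4]
      _ = A v := by abel
  have hzc : ‖z - c‖ ≤ 2 := by rw [norm_sub_rev]; exact hc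
  refine ⟨⟨?_, ?_⟩, ?_, ?_, ?_⟩
  · have h1 : ((a 0 : U) : E) = A (z - c) - (z - c) := by
      have h2 := ha 0
      rw [Submodule.coe_zero, add_zero] at h2
      have h3 : ((a 0 : U) : E) = z + ((a 0 : U) : E) - z := by abel
      rw [h3, h2]; abel
    have h4 : ‖(a 0 : U)‖ = ‖A (z - c) - (z - c)‖ := by
      rw [← h1]; rfl
    rw [h4]
    calc _ ≤ θ * ‖z - c‖ := hA _
      _ ≤ 2 * θ := by nlinarith
  · intro v
    have h1 : ‖a.linearIsometryEquiv v - v‖ = ‖A v - v‖ := by
      rw [← hlin]; rfl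
    rw [h1]
    have h2 := hA (v : E)
    have h3 : ‖(v : E)‖ = ‖v‖ := rfl
    rw [h3] at h2
    nlinarith [norm_nonneg v, mul_nonneg hθ (norm_nonneg v)]
  · intro p hp hpn
    have h1 := hX (z + p) hp (by rw [add_sub_cancel_left]; exact hpn)
    refine ⟨?_, ?_⟩
    · change z + ((a p : U) : E) ∈ X
      rw [ha]; exact h1.1
    · change z + ((a⁻¹ p : U) : E) ∈ X
      have h2 := ha (a⁻¹ p)
      rw [aff_inv_apply] at h2
      have h3 : z + ((a⁻¹ p : U) : E) = c + A.symm (z + p - c) := by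
        have h4 : z + (p : E) - c = A (z + ((a⁻¹ p : U) : E) - c) := by
          rw [h2]; abel
        rw [h4, LinearIsometryEquiv.symm_apply_apply]; abel
      rw [h3]; exact h1.2
  · obtain ⟨n, hn, hn1⟩ := ho
    refine ⟨n, hn, ?_⟩
    have h1 : ∀ k : ℕ, ∀ v : U, (((a.linearIsometryEquiv ^ k) v : U) : E) = (A ^ k) v := by
      intro k
      induction k with
      | zero => intro v; rfl
      | succ k ih =>
        intro v
        rw [pow_succ, pow_succ]
        change (((a.linearIsometryEquiv ^ k) (a.linearIsometryEquiv v) : U) : E) = (A ^ k) (A v)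
        rw [ih, hlin]
    ext v
    rw [h1, hn1]; rfl
  · -- the projection of the centre is fixed
    have hU : ∀ v ∈ U, A v ∈ U := by
      intro v hv
      rw [← hlin ⟨v, hv⟩]; exact Submodule.coe_mem _
    have hUp : ∀ v ∈ Uᗮ, A v ∈ Uᗮ := by
      intro v hv u hu
      -- `u = A u'` with `u' ∈ U`
      have h1 : ((a.linearIsometryEquiv (a.linearIsometryEquiv.symm ⟨u, hu⟩) : U) : E) = u := by
        rw [LinearIsometryEquiv.apply_symm_apply]
      rw [hlin] at h1
      rw [← h1, LinearIsometryEquiv.inner_map_map]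
      exact hv _ (Submodule.coe_mem _)
    let e : E := c - z
    let e₁ : U := U.orthogonalProjectionOnto e
    have he₂ : e - e₁ ∈ Uᗮ := U.sub_starProjection_mem_orthogonal e
    refine ⟨e₁, ?_, ?_⟩
    · rw [sub_zero]
      exact (U.norm_orthogonalProjectionOnto_apply_le e).trans hc
    · apply Subtype.ext
      have h1 : ((a e₁ : U) : E) = A e₁ + (e - A e) := by
        have h2 := ha e₁
        have h3 : ((a e₁ : U) : E) = z + ((a e₁ : U) : E) - z := by abel
        rw [h3, h2]
        have h4 : z + (e₁ : E) - c = e₁ - e := by simp only [e]; abel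
        rw [h4, map_sub]
        simp only [e]; abel
      have h5 : (e - e₁) - A (e - e₁) ∈ U := by
        have h6 : (e - (e₁ : E)) - A (e - e₁) = (a e₁ : U) - (e₁ : E) := by
          rw [h1, map_sub]; abel
        rw [h6]
        exact U.sub_mem (Submodule.coe_mem _) (Submodule.coe_mem _)
      have h7 : (e - e₁) - A (e - e₁) ∈ Uᗮ := Uᗮ.sub_mem he₂ (hUp _ he₂)
      have h8 : (e - e₁) - A (e - e₁) = 0 := by
        have := h7 _ h5
        exact inner_self_eq_zero.1 this
      rw [map_sub] at h8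
      rw [h1]
      have h9 : A e₁ + (e - A e) = e₁ + ((e - e₁) - (A e - A e₁)) := by abel
      rw [h9, h8, add_zero]

end Pool.Agent.Helper31.Del
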