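import Pool.Agent.Helper31.Del.Goals

/-! The base lemma: pairwise commutation. -/

namespace Pool.Agent.Helper31.Del

open Module
open scoped RealInnerProductSpace

variable {V : Type*} [NormedAddCommGroup V] [InnerProductSpace ℝ V]

theorem aff_apply (a : V ≃ᵃⁱ[ℝ] V) (v w : V) :
    a (v + w) = a v + a.linearIsometryEquiv w := by
  have h := a.map_vadd v w
  rw [vadd_eq_add, vadd_eq_add] at h
  rw [add_comm v w, h, add_comm]

theorem aff_apply_zero (a : V ≃ᵃⁱ[ℝ] V) (v : V) :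
    a v = a.linearIsometryEquiv v + a 0 := by
  have h := aff_apply a 0 v
  rw [zero_add] at h
  rw [h, add_comm]

theorem aff_inv_apply (a : V ≃ᵃⁱ[ℝ] V) (v : V) : a (a⁻¹ v) = v := a.apply_symm_apply v

theorem aff_inv_apply' (a : V ≃ᵃⁱ[ℝ] V) (v : V) : a⁻¹ (a v) = v := a.symm_apply_apply v

theorem ANr.disp {a : V ≃ᵃⁱ[ℝ] V} {δ : ℝ} (h : ANr a δ) (p : V) : ‖a p - p‖ ≤ δ * (1 + ‖p‖) := by
  have h1 : a p - p = (a.linearIsometryEquiv p - p) + a 0 := by rw [aff_apply_zero a p]; abel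
  rw [h1]
  calc _ ≤ ‖a.linearIsometryEquiv p - p‖ + ‖a 0‖ := norm_add_le _ _
    _ ≤ δ * ‖p‖ + δ := add_le_add (h.2 p) h.1
    _ = _ := by ring

theorem ANr.disp_inv {a : V ≃ᵃⁱ[ℝ] V} {δ : ℝ} (h : ANr a δ) (p : V) :
    ‖a⁻¹ p - p‖ ≤ δ * (1 + ‖p‖) := by
  have h1 : ‖a⁻¹ p - p‖ = ‖a p - p‖ := by
    rw [← dist_eq_norm, ← dist_eq_norm]
    have h2 := a.dist_map (a⁻¹ p) p
    rw [aff_inv_apply] at h2
    rw [← h2, dist_comm]
  rw [h1]
  exact h.disp p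

theorem Tr.neg {Y : Set V} {ρ τ : ℝ} {t : V} (h : Tr Y ρ τ t) : Tr Y ρ τ (-t) := by
  refine ⟨by rw [norm_neg]; exact h.1, fun p hp hpn => ?_⟩
  have := h.2 p hp hpn
  rw [← sub_eq_add_neg, sub_neg_eq_add]
  exact ⟨this.2, this.1⟩

theorem Tr.mono {Y : Set V} {ρ ρ' τ : ℝ} {t : V} (h : Tr Y ρ' τ t) (hρ : ρ ≤ ρ') : Tr Y ρ τ t :=
  ⟨h.1, fun p hp hpn => h.2 p hp (hpn.trans hρ)⟩

/-- a local symmetry maps local translations to local translations -/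
theorem tr_image {Y : Set V} {r r' κ τ β : ℝ} {h : V ≃ᵃⁱ[ℝ] V} (hN : ANr h β)
    (hG : Good Y κ h) (hr1 : r ≤ 1) (hr : r + 2 * β ≤ r') (hr' : r' + τ ≤ κ) (hτ : 0 ≤ τ) {t : V}
    (ht : Tr Y r' τ t) : Tr Y r τ (h.linearIsometryEquiv t) := by
  have hβ : 0 ≤ β := (norm_nonneg _).trans hN.1
  have key : ∀ s : V, Tr Y r' τ s → ∀ p ∈ Y, ‖p‖ ≤ r → p + h.linearIsometryEquiv s ∈ Y := by
    intro s hs p hp hpn
    have h1 : h⁻¹ p ∈ Y := (hG p hp (by linarith)).2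
    have h2 : ‖h⁻¹ p‖ ≤ r' := by
      have h3 := hN.disp_inv p
      have h4 : ‖h⁻¹ p‖ ≤ ‖h⁻¹ p - p‖ + ‖p‖ := by
        have := norm_add_le (h⁻¹ p - p) p
        rwa [sub_add_cancel] at this
      nlinarith [norm_nonneg p]
    have h5 : h⁻¹ p + s ∈ Y := (hs.2 _ h1 h2).1
    have h6 : ‖h⁻¹ p + s‖ ≤ κ := by
      calc _ ≤ ‖h⁻¹ p‖ + ‖s‖ := norm_add_le _ _
        _ ≤ r' + τ := add_le_add h2 hs.1
        _ ≤ κ := hr'
    have h7 := (hG _ h5 h6).1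
    rwa [aff_apply, aff_inv_apply] at h7
  refine ⟨by rw [LinearIsometryEquiv.norm_map]; exact ht.1, fun p hp hpn => ⟨key t ht p hp hpn, ?_⟩⟩
  have := key (-t) ht.neg p hp hpn
  rwa [map_neg, ← sub_eq_add_neg] at this

/-- local symmetries fix the local translations -/
theorem fix_tr [FiniteDimensional ℝ V] (hW : Walk V) (hR : RatRot V)
    {Y : Set V} {r r' κ τ β : ℝ} {h : V ≃ᵃⁱ[ℝ] V} (h0 : (0 : V) ∈ Y)
    (hfin : {p | p ∈ Y ∧ ‖p‖ ≤ r}.Finite) (hN : ANr h β) (hβ1 : β < 1)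
    (hG : Good Y κ h) (hr1 : r ≤ 1) (hr : r + 2 * β ≤ r') (hr' : r' + τ ≤ κ) (hτ : 0 ≤ τ)
    (hkr : (3 * finrank ℝ V + 3) * τ ≤ r) (ho : ∃ n : ℕ, 0 < n ∧ h.linearIsometryEquiv ^ n = 1)
    (hspan : Submodule.span ℝ {t | Tr Y r τ t} ≤ Submodule.span ℝ {t | Tr Y r' τ t}) {t : V}
    (ht : Tr Y r' τ t) : h.linearIsometryEquiv t = t := by
  have hβ : 0 ≤ β := (norm_nonneg _).trans hN.1
  obtain ⟨b, hb1, hb2, hb3⟩ := exists_linearIndependent ℝ {t | Tr Y r' τ t}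
  have hbfin : b.Finite := hb3.setFinite
  have : Fintype b := hbfin.fintype
  let k := Fintype.card b
  let e : Fin k ≃ b := (Fintype.equivFin b).symm
  let u : Fin k → V := fun i => (e i : V)
  have hu : LinearIndependent ℝ u := hb3.comp e e.injective
  have hrange : Set.range u = b := by
    ext x
    constructor
    · rintro ⟨i, rfl⟩; exact (e i).2
    · intro hx; exact ⟨e.symm ⟨x, hx⟩, by simp [u]⟩
  have hk : k ≤ finrank ℝ V := by
    have := hu.fintype_card_le_finrank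
    simpa using this
  have huT : ∀ i, Tr Y r' τ (u i) := fun i => hb1 (e i).2
  have huT' : ∀ i, Tr Y r τ (u i) := fun i => (huT i).mono (by linarith)
  have hfix : ∀ i, h.linearIsometryEquiv (u i) = u i := by
    apply hR k u h.linearIsometryEquiv β hu hβ1 hN.2 ho
    intro i
    apply hW Y r τ k u _ h0 hfin _ huT'
      (tr_image hN hG hr1 hr hr' hτ (huT i))
    · rw [hrange, hb2]
      apply hspan
      exact Submodule.subset_span (tr_image hN hG hr1 hr hr' hτ (huT i))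
    · have : (k : ℝ) ≤ finrank ℝ V := by exact_mod_cast hk
      nlinarith
  have ht2 : t ∈ Submodule.span ℝ (Set.range u) := by
    rw [hrange, hb2]; exact Submodule.subset_span ht
  have hle : Submodule.span ℝ (Set.range u) ≤
      LinearMap.eqLocus (h.linearIsometryEquiv.toLinearEquiv : V →ₗ[ℝ] V) LinearMap.id := by
    rw [Submodule.span_le]
    rintro _ ⟨i, rfl⟩
    exact hfix i
  exact hle ht2

/-- local symmetries commute -/
theorem commute [FiniteDimensional ℝ V] (hA : AlmostComm V) (hW : Walk V) (hR : RatRot V)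
    {Y : Set V} {m r r' κ τ β : ℝ} (hm : 0 < m) (hsep : ∀ x ∈ Y, ∀ y ∈ Y, x ≠ y → m ≤ ‖x - y‖)
    (h0 : (0 : V) ∈ Y) (hfin : {p | p ∈ Y ∧ ‖p‖ ≤ r}.Finite)
    (hspY : Submodule.span ℝ {p | p ∈ Y ∧ ‖p‖ ≤ r} = ⊤)
    (hspan : Submodule.span ℝ {t | Tr Y r τ t} ≤ Submodule.span ℝ {t | Tr Y r' τ t})
    (hβ8 : β ≤ 1 / 8) (hκ : κ ≤ 1) (h24 : r + 24 * β ≤ κ) (hr : r + 2 * β ≤ r')
    (hr' : r' + τ ≤ κ) (hr6 : r' + 6 * β ≤ κ) (hτ : 4 * β ^ 2 ≤ τ)
    (hkr : (3 * finrank ℝ V + 3) * τ ≤ r) {g h : V ≃ᵃⁱ[ℝ] V} (hg : ANr g β) (hh : ANr h β)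
    (hgG : Good Y κ g) (hhG : Good Y κ h)
    (ho : ∃ n : ℕ, 0 < n ∧ h.linearIsometryEquiv ^ n = 1) (hq : ∃ q : V, h q = q) (v : V) :
    g (h v) = h (g v) := by
  have hβ : 0 ≤ β := (norm_nonneg _).trans hg.1
  have hτ0 : 0 ≤ τ := le_trans (by positivity) hτ
  obtain ⟨t, ht1, ht2, ht3⟩ := hA Y m r κ β g h hm hsep h0 hspY hβ8 h24 hκ hg hh hgG hhG
  have htT : Tr Y r' τ t := ⟨ht1.trans hτ, fun p hp hpn => ht3 p hp (by linarith)⟩
  have hfix := fix_tr hW hR h0 hfin hh (by linarith) hhG (by linarith) hr hr' hτ0 hkr ho hspan htT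
  obtain ⟨q, hq⟩ := hq
  have h1 : t = h.linearIsometryEquiv (g q - q) - (g q - q) := by
    have h2 := ht2 q
    rw [hq] at h2
    have h3 : h (g q) = q + h.linearIsometryEquiv (g q - q) := by
      have h8 := aff_apply h q (g q - q)
      rwa [add_sub_cancel, hq] at h8
    rw [h3] at h2
    have h4 : t = q + h.linearIsometryEquiv (g q - q) - g q := by rw [h2]; abel
    rw [h4]; abel
  have h5 : ⟪t, t⟫ = 0 := by
    conv_lhs => rw [h1]
    rw [inner_sub_left, ← h1]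
    have h6 : ⟪h.linearIsometryEquiv (g q - q), t⟫ = ⟪g q - q, t⟫ := by
      conv_lhs => rw [← hfix]
      exact LinearIsometryEquiv.inner_map_map _ _ _
    rw [h6, sub_self]
  have h7 : t = 0 := inner_self_eq_zero.1 h5
  rw [ht2 v, h7, add_zero]

end Pool.Agent.Helper31.Del
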