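import Pool.Agent.Helper31.Del.Base

/-! The base lemma. -/

namespace Pool.Agent.Helper31.Del

open Module
open scoped RealInnerProductSpace

variable {E : Type*} [NormedAddCommGroup E] [InnerProductSpace ℝ E]

theorem map_span_top [FiniteDimensional ℝ E] {U : Submodule ℝ E} {S : Set E} (hS : U = Submodule.span ℝ S) :
    Submodule.span ℝ {p : U | (p : E) ∈ S} = ⊤ := by
  apply Submodule.map_injective_of_injective U.injective_subtype
  rw [Submodule.map_subtype_top, Submodule.map_span]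
  have h1 : (U.subtype '' {p : U | (p : E) ∈ S}) = S := by
    ext x
    constructor
    · rintro ⟨p, hp, rfl⟩; exact hp
    · intro hx
      have hxU : x ∈ U := by rw [hS]; exact Submodule.subset_span hx
      exact ⟨⟨x, hxU⟩, hx, rfl⟩
  rw [h1, ← hS]

theorem base [FiniteDimensional ℝ E] (hA : ∀ U : Submodule ℝ E, AlmostComm U)
    (hW : ∀ U : Submodule ℝ E, Walk U) (hR : ∀ U : Submodule ℝ E, RatRot U)
    (hC : ∀ U : Submodule ℝ E, CommonFix U) : Base E := by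
  intro X m κ θ z 𝒢 hm hsep hz hκ0 hκ1 hθ hθκ h𝒢
  set d := finrank ℝ E with hd
  have hd0 : (0 : ℝ) ≤ d := Nat.cast_nonneg _
  let X' : Set E := {p | z + p ∈ X}
  have h0X : (0 : E) ∈ X' := by change z + 0 ∈ X; rw [add_zero]; exact hz
  obtain ⟨τ, hτdef⟩ : ∃ τ : ℝ, τ = κ / (12 * (d + 1)) := ⟨_, rfl⟩
  obtain ⟨s, hsdef⟩ : ∃ s : ℝ, s = κ / (2 * (2 * d + 1)) := ⟨_, rfl⟩
  have hτ1 : 12 * (d + 1) * τ = κ := by rw [hτdef]; field_simp
  have hs1 : 2 * (2 * d + 1) * s = κ := by rw [hsdef]; field_simp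
  have hs0 : 0 < s := by rw [hsdef]; positivity
  have hτ0 : 0 < τ := by rw [hτdef]; positivity
  let rr : ℕ → ℝ := fun j => κ / 4 + j * s
  have hrr : Monotone rr := by
    intro i j hij
    have : (i : ℝ) ≤ j := by exact_mod_cast hij
    change κ / 4 + i * s ≤ κ / 4 + j * s
    nlinarith
  let Λ : ℕ → Submodule ℝ E := fun j => Submodule.span ℝ {p | p ∈ X' ∧ ‖p‖ ≤ rr j}
  let N : ℕ → Submodule ℝ E := fun j => Submodule.span ℝ {t | Tr X' (rr j) τ t}
  have hΛ : Monotone Λ := fun i j hij =>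
    Submodule.span_mono (fun p hp => ⟨hp.1, hp.2.trans (hrr hij)⟩)
  have hN : Antitone N := fun i j hij => Submodule.span_mono (fun t ht => Tr.mono ht (hrr hij))
  let f : ℕ → ℕ := fun j => finrank ℝ (Λ j) + (d - finrank ℝ (N j))
  obtain ⟨j, hj, hfj⟩ := plateau f (by
      intro i k hik
      have h1 := Submodule.finrank_mono (hΛ hik)
      have h2 := Submodule.finrank_mono (hN hik)
      change finrank ℝ (Λ i) + (d - finrank ℝ (N i)) ≤ finrank ℝ (Λ k) + (d - finrank ℝ (N k))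
      omega) (2 * d) (by
      have h1 := Submodule.finrank_le (Λ (2 * d + 1))
      change finrank ℝ (Λ (2 * d + 1)) + (d - finrank ℝ (N (2 * d + 1))) ≤ 2 * d
      omega)
  have h1 := Submodule.finrank_mono (hΛ (Nat.le_succ j))
  have h2 := Submodule.finrank_mono (hN (Nat.le_succ j))
  have h3 := Submodule.finrank_le (N j)
  have hfj' : finrank ℝ (Λ j) + (d - finrank ℝ (N j)) =
    finrank ℝ (Λ (j + 1)) + (d - finrank ℝ (N (j + 1))) := hfj
  simp only [Nat.succ_eq_add_one] at h1 h2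
  have hΛj : Λ j = Λ (j + 1) :=
    Submodule.eq_of_le_of_finrank_eq (hΛ (Nat.le_succ j)) (by omega)
  have hNj : N (j + 1) = N j :=
    Submodule.eq_of_le_of_finrank_eq (hN (Nat.le_succ j)) (by omega)
  have hr0 : κ / 4 ≤ rr j := by
    change κ / 4 ≤ κ / 4 + j * s
    have : 0 ≤ (j : ℝ) * s := by positivity
    linarith
  have hr1 : rr (j + 1) = rr j + s := by
    change κ / 4 + ((j + 1 : ℕ) : ℝ) * s = κ / 4 + j * s + s
    push_cast; ring
  have hr2 : rr (j + 1) ≤ 3 * κ / 4 := by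
    have h4 : ((j + 1 : ℕ) : ℝ) ≤ 2 * d + 1 := by exact_mod_cast Nat.succ_le_succ hj
    change κ / 4 + ((j + 1 : ℕ) : ℝ) * s ≤ 3 * κ / 4
    nlinarith
  -- numerical facts
  have hθ1 : 400 * θ ≤ κ := by nlinarith
  have hθs : 100 * θ ≤ s := by
    -- 400 (d+1) θ ≤ κ = 2 (2 d + 1) s ≤ 4 (d+1) s
    have h4 : 400 * (d + 1) * θ ≤ 4 * (d + 1) * s := by nlinarith
    have h5 : (0 : ℝ) < d + 1 := by linarith
    nlinarith
  have hτκ : 12 * τ ≤ κ := by nlinarith
  have hθτ : 4 * (2 * θ) ^ 2 ≤ τ := by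
    -- 400 (d+1) θ ≤ κ = 12 (d+1) τ
    have h5 : (0 : ℝ) < d + 1 := by linarith
    have h6 : 400 * θ ≤ 12 * τ := by
      have : (d + 1 : ℝ) * (400 * θ) ≤ (d + 1) * (12 * τ) := by nlinarith
      exact le_of_mul_le_mul_left this h5
    have h7 : θ ≤ 1 / 400 := by linarith
    nlinarith
  let U : Submodule ℝ E := Λ j
  have hUj1 : U = Λ (j + 1) := hΛj
  let Y : Set U := {v : U | z + (v : E) ∈ X}
  -- translations in `U` and in `E`
  have htrU : ∀ i, Λ i = U → κ / 4 ≤ rr i → ∀ t : E, Tr X' (rr i) τ t → t ∈ U := by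
    intro i hi hri t ht
    rw [← hi]
    apply Submodule.subset_span
    refine ⟨?_, ht.1.trans (by linarith)⟩
    have := (ht.2 0 h0X (by rw [norm_zero]; linarith)).1
    rwa [zero_add] at this
  have htr : ∀ i, Λ i = U → ∀ t : U, Tr Y (rr i) τ t ↔ Tr X' (rr i) τ (t : E) := by
    intro i hi t
    constructor
    · rintro ⟨ht1, ht2⟩
      refine ⟨ht1, fun p hp hpn => ?_⟩
      have hpU : p ∈ U := by rw [← hi]; exact Submodule.subset_span ⟨hp, hpn⟩
      have := ht2 ⟨p, hpU⟩ hp hpn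
      exact this
    · rintro ⟨ht1, ht2⟩
      refine ⟨ht1, fun p hp hpn => ?_⟩
      exact ht2 (p : E) hp hpn
  have hmapN : ∀ i, Λ i = U → κ / 4 ≤ rr i →
      (Submodule.span ℝ {t : U | Tr Y (rr i) τ t}).map U.subtype = N i := by
    intro i hi hri
    rw [Submodule.map_span]
    congr 1
    ext t
    constructor
    · rintro ⟨u, hu, rfl⟩
      exact (htr i hi u).1 hu
    · intro ht
      exact ⟨⟨t, htrU i hi hri t ht⟩, (htr i hi _).2 ht, rfl⟩
  have hspan : Submodule.span ℝ {t : U | Tr Y (rr j) τ t} ≤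
      Submodule.span ℝ {t : U | Tr Y (rr (j + 1)) τ t} := by
    rw [← Submodule.map_le_map_iff_of_injective U.injective_subtype, hmapN j rfl hr0,
      hmapN (j + 1) hUj1.symm (by linarith), hNj]
  have hspY : Submodule.span ℝ {p : U | p ∈ Y ∧ ‖p‖ ≤ rr j} = ⊤ :=
    map_span_top (U := U) (S := {p | p ∈ X' ∧ ‖p‖ ≤ rr j}) rfl
  have hsepY : ∀ x ∈ Y, ∀ y ∈ Y, x ≠ y → m ≤ ‖x - y‖ := by
    intro x hx y hy hxy
    have h4 := hsep _ hx _ hy (by
      intro h5
      apply hxy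
      exact Subtype.ext (add_left_cancel h5))
    have h6 : z + (x : E) - (z + y) = x - y := by abel
    rw [h6] at h4
    exact h4
  have h0Y : (0 : U) ∈ Y := h0X
  have hfin : {p : U | p ∈ Y ∧ ‖p‖ ≤ rr j}.Finite := by
    have h4 := Pool.Agent.Helper65.Delone.finiteNear (E := U) Y m hm hsepY 0 (rr j)
    apply h4.subset
    intro p hp
    refine ⟨hp.1, ?_⟩
    rw [zero_sub, norm_neg]; exact hp.2
  -- the linear parts preserve `U`
  have hstep : ∀ g ∈ 𝒢, ∀ p ∈ X', ‖p‖ ≤ rr j → g.1 + g.2 (z + p - g.1) - z ∈ U := by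
    intro g hg p hp hpn
    obtain ⟨hc, hAθ, -, hgX⟩ := h𝒢 g hg
    rw [hUj1]
    apply Submodule.subset_span
    refine ⟨?_, ?_⟩
    · change z + (g.1 + g.2 (z + p - g.1) - z) ∈ X
      rw [add_sub_cancel]
      exact (hgX (z + p) hp (by rw [add_sub_cancel_left]; linarith)).1
    · have h4 : g.1 + g.2 (z + p - g.1) - z = p + (g.2 (z + p - g.1) - (z + p - g.1)) := by abel
      rw [h4]
      have h5 := hAθ (z + p - g.1)
      have h6 : ‖z + p - g.1‖ ≤ 3 := by
        have h7 : z + p - g.1 = -(g.1 - z) + p := by abel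
        rw [h7]
        calc _ ≤ ‖-(g.1 - z)‖ + ‖p‖ := norm_add_le _ _
          _ ≤ 3 := by rw [norm_neg]; linarith
      calc _ ≤ ‖p‖ + ‖g.2 (z + p - g.1) - (z + p - g.1)‖ := norm_add_le _ _
        _ ≤ rr j + θ * 3 := by nlinarith
        _ ≤ rr (j + 1) := by linarith
  have hw : ∀ g ∈ 𝒢, g.1 + g.2 (z - g.1) - z ∈ U := by
    intro g hg
    have := hstep g hg 0 h0X (by rw [norm_zero]; linarith)
    rwa [add_zero] at this
  have hgU : ∀ g ∈ 𝒢, ∀ v ∈ U, g.2 v ∈ U := by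
    intro g hg v hv
    have hle : U ≤ U.comap (g.2.toLinearEquiv : E →ₗ[ℝ] E) := by
      change Submodule.span ℝ {p | p ∈ X' ∧ ‖p‖ ≤ rr j} ≤ _
      rw [Submodule.span_le]
      rintro p ⟨hp, hpn⟩
      change g.2 p ∈ U
      have h4 : g.2 p = (g.1 + g.2 (z + p - g.1) - z) - (g.1 + g.2 (z - g.1) - z) := by
        have h5 : z + p - g.1 = (z - g.1) + p := by abel
        rw [h5, map_add]; abel
      rw [h4]
      exact U.sub_mem (hstep g hg p hp hpn) (hw g hg)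
    exact hle hv
  -- the restricted family
  let 𝒢' : Set (U ≃ᵃⁱ[ℝ] U) := {a | ∃ g ∈ 𝒢, ∀ v : U, z + (a v : E) = g.1 + g.2 (z + v - g.1)}
  have hfacts : ∀ a ∈ 𝒢', ANr a (2 * θ) ∧ Good Y κ a ∧
      (∃ n : ℕ, 0 < n ∧ a.linearIsometryEquiv ^ n = 1) ∧ ∃ c' : U, ‖c' - 0‖ ≤ 2 ∧ a c' = c' := by
    rintro a ⟨g, hg, ha⟩
    obtain ⟨hc, hAθ, ho, hgX⟩ := h𝒢 g hg
    exact restrict_facts hc hAθ hθ ho hgX ha
  have hfinU : (finrank ℝ U : ℝ) ≤ d := by exact_mod_cast Submodule.finrank_le U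
  obtain ⟨f', hf'1, hf'2⟩ := hC U 𝒢' 0 2 (by norm_num) (by
      intro g hg h hh v
      obtain ⟨g1, g2, g3, g4⟩ := hfacts g hg
      obtain ⟨h1, h2, h3, h4⟩ := hfacts h hh
      refine commute (hA U) (hW U) (hR U) (m := m) (r := rr j) (r' := rr (j + 1)) (κ := κ)
        (τ := τ) (β := 2 * θ) hm hsepY h0Y hfin hspY hspan ?_ hκ1 ?_ ?_ ?_ ?_ hθτ ?_ g1 h1 g2 h2
        h3 ?_ v
      · linarith
      · linarith
      · linarith
      · linarith
      · linarith
      · nlinarith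
      · obtain ⟨c, -, hc⟩ := h4
        exact ⟨c, hc⟩) (by
      intro g hg
      exact (hfacts g hg).2.2.2)
  refine ⟨z + f', ?_, ?_⟩
  · rw [add_sub_cancel_left]
    rw [sub_zero] at hf'1
    have h4 : ‖(f' : E)‖ ≤ 2 * (finrank ℝ U + 1) := hf'1
    linarith
  · intro g hg
    obtain ⟨a, ha⟩ := exists_restrict U g.2 z g.1 (hgU g hg) (hw g hg)
    have h4 := hf'2 a ⟨g, hg, ha⟩
    have h5 := ha f'
    rw [h4] at h5
    have h6 : z + (f' : E) - g.1 = (g.1 + g.2 (z + f' - g.1)) - g.1 := by rw [← h5]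
    conv_rhs => rw [h6]
    abel

end Pool.Agent.Helper31.Del
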