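import Pool.Agent.Helper31.Del.Levels
import Pool.Agent.Helper65.Delone.A
import Pool.Agent.Helper65.Delone.B
import Pool.Agent.Helper65.Delone.C
import Pool.Agent.Helper65.Delone.H
import Pool.Agent.Helper65.Delone.Small
import Pool.Agent.Helper68.Del.Chain
import Pool.Agent.Helper68.Del.Comm
import Pool.Agent.Helper68.Del.Cover
import Pool.Agent.Helper68.Del.Cut
import Pool.Agent.Helper68.Del.NoSmall
import Pool.Agent.Helper68.Del.RatRot
import Pool.Agent.Helper23.Del.B2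
import Pool.Agent.Helper36.Del.Walk
import Pool.Agent.Helper3.Del.CommonFix
import Pool.Agent.Helper33.Del.BddSurj
import Pool.Agent.Helper33.Del.ThinComb
import Pool.Agent.Helper91.Del.Topo

/-! The bound for the order of the `2R`-cluster groups in every dimension. -/

namespace Pool.Agent.Helper31.Del

open Module Pool.Agent.Helper65.Delone MeasureTheory Metric Set
open scoped RealInnerProductSpace ENNReal NNReal

section packing

open scoped Function in -- required for scoped `on`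
/-- packing in the unit ball of a normed space -/
theorem packing_gen {V : Type*} [NormedAddCommGroup V] [NormedSpace ℝ V] [FiniteDimensional ℝ V]
    (s : Finset V) (ε : ℝ) (hε : 0 < ε) (hs : ∀ c ∈ s, ‖c‖ ≤ 1)
    (h : ∀ c ∈ s, ∀ d ∈ s, c ≠ d → ε ≤ ‖c - d‖) :
    (s.card : ℝ) ≤ (1 + 2 / ε) ^ finrank ℝ V := by
  borelize V
  let μ : Measure V := Measure.addHaar
  obtain ⟨δ, hδ⟩ : ∃ δ : ℝ, δ = ε / 2 := ⟨_, rfl⟩
  obtain ⟨ρ, hρ⟩ : ∃ ρ : ℝ, ρ = 1 + ε / 2 := ⟨_, rfl⟩
  have δpos : 0 < δ := by rw [hδ]; positivity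
  have ρpos : 0 < ρ := by rw [hρ]; positivity
  set A := ⋃ c ∈ s, ball (c : V) δ with hA
  have D : Set.Pairwise (s : Set V) (Disjoint on fun c => ball (c : V) δ) := by
    rintro c hc d hd hcd
    apply ball_disjoint_ball
    rw [dist_eq_norm]
    have := h c hc d hd hcd
    linarith
  have A_subset : A ⊆ ball (0 : V) ρ := by
    refine iUnion₂_subset fun x hx => ?_
    apply ball_subset_ball'
    calc
      δ + dist x 0 ≤ δ + 1 := by rw [dist_zero_right]; exact add_le_add le_rfl (hs x hx)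
      _ = ρ := by rw [hδ, hρ]; ring
  have I :
    (s.card : ℝ≥0∞) * ENNReal.ofReal (δ ^ finrank ℝ V) * μ (ball 0 1) ≤
      ENNReal.ofReal (ρ ^ finrank ℝ V) * μ (ball 0 1) :=
    calc
      (s.card : ℝ≥0∞) * ENNReal.ofReal (δ ^ finrank ℝ V) * μ (ball 0 1) = μ A := by
        rw [hA, measure_biUnion_finset D fun c _ => measurableSet_ball]
        simp only [μ.addHaar_ball_of_pos _ δpos]
        simp only [Finset.sum_const, nsmul_eq_mul, mul_assoc]
      _ ≤ μ (ball (0 : V) ρ) := measure_mono A_subset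
      _ = ENNReal.ofReal (ρ ^ finrank ℝ V) * μ (ball 0 1) := by
        simp only [μ.addHaar_ball_of_pos _ ρpos]
  have J : (s.card : ℝ≥0∞) * ENNReal.ofReal (δ ^ finrank ℝ V) ≤
      ENNReal.ofReal (ρ ^ finrank ℝ V) :=
    (ENNReal.mul_le_mul_iff_left (measure_ball_pos _ _ zero_lt_one).ne'
      measure_ball_lt_top.ne).1 I
  have h1 := ENNReal.toReal_le_of_le_ofReal (pow_nonneg ρpos.le _) J
  rw [ENNReal.toReal_mul, ENNReal.toReal_natCast, ENNReal.toReal_ofReal (by positivity)] at h1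
  have h2 : ρ ^ finrank ℝ V = (1 + 2 / ε) ^ finrank ℝ V * δ ^ finrank ℝ V := by
    rw [← mul_pow]; congr 1; rw [hρ, hδ]; field_simp; ring
  rw [h2] at h1
  exact le_of_mul_le_mul_right h1 (by positivity)

end packing

section

variable {E : Type} [NormedAddCommGroup E] [InnerProductSpace ℝ E] [FiniteDimensional ℝ E]

theorem base_all : Base E :=
  base (fun U => Pool.Agent.Helper23.Del.almostComm (Pool.Agent.Helper68.Del.commStep U)
      (Pool.Agent.Helper68.Del.frob U))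
    (fun _ => Pool.Agent.Helper36.Del.walk) (fun U => Pool.Agent.Helper68.Del.ratRot U)
    (fun _ => Pool.Agent.Helper3.Del.commonFix)

theorem topo_all : Topo E :=
  Pool.Agent.Helper91.Del.topo
    (Pool.Agent.Helper68.Del.coverSurj E Pool.Agent.Helper33.Del.bddSurj)
    (Pool.Agent.Helper68.Del.thinUnion E) Pool.Agent.Helper33.Del.thinComb
    (Pool.Agent.Helper68.Del.chainDim E) (Pool.Agent.Helper68.Del.cutMap E)

/-- no symmetry of a cluster is close to the identity (radius one) -/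
theorem small_trivial_one {X : Set E} {D θ : ℝ} (hD : 0 < D) (h : SepDense X D 1)
    (hcong : ∀ x ∈ X, ∀ y ∈ X, ∃ B : E ≃ₗᵢ[ℝ] E, Iso X 2 x y B) (hθ : 0 ≤ θ)
    (hθd : 400 * (finrank ℝ E + 1) * θ ≤ 1000 * (4000 : ℝ)⁻¹ ^ (2 ^ (finrank ℝ E - 1)))
    {x : E} (hx : x ∈ X) {A : E ≃ₗᵢ[ℝ] E} (hA : Iso X 2 x x A) (hs : Nr A θ) : A = 1 := by
  by_contra hA1
  have hfo : FiniteOrder E := finiteOrder finiteNear (existsPos lemM)
  obtain ⟨N, hN, hAN⟩ := hfo X D 1 hD h x hx A (by rw [mul_one]; exact hA)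
  have hfam : (x, A) ∈ Fam X θ 0 x :=
    ⟨hx, by change ‖x - x‖ ≤ 0; rw [sub_self, norm_zero], by rw [sub_zero]; exact ⟨hA, hs, N, hN, hAN⟩⟩
  have hne : ∀ y ∈ X, ∃ A' ∈ Sym X θ 2 y, A' ≠ 1 := by
    intro y hy
    obtain ⟨B, hB⟩ := hcong x hx y hy
    have h1 := sym_conj hB (by norm_num) hfam
    have h2 := h1.2.2
    simp only [sub_self, map_zero, add_zero, sub_zero] at h2
    refine ⟨_, h2, ?_⟩
    intro h3
    apply hA1
    have h4 : A = B⁻¹ * (B * A * B⁻¹) * B := by group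
    rw [h4, h3]; group
  obtain ⟨η, K, C₀, W, h1, h2, h3, h4, h5, h6⟩ :=
    levels base_all smallCodim X D θ hD h hcong hθ hθd hne
  exact topo_all X D η K C₀ W hD h h1 h2 h3 h4 h5 h6

/-- scaling -/
theorem iso_scale {X : Set E} {R : ℝ} (hR : 0 < R) {x y : E} {B : E ≃ₗᵢ[ℝ] E}
    (hB : Iso X (2 * R) x y B) : Iso {v | R • v ∈ X} 2 (R⁻¹ • x) (R⁻¹ • y) B := by
  intro v hv
  have h1 : ∀ z w : E, R • (R⁻¹ • z + w) = z + R • w := by
    intro z w
    rw [smul_add, smul_smul, mul_inv_cancel₀ hR.ne', one_smul]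
  change R • (R⁻¹ • x + v) ∈ X ↔ R • (R⁻¹ • y + B v) ∈ X
  rw [h1, h1, ← map_smul]
  apply hB
  rw [norm_smul, Real.norm_of_nonneg hR.le]
  nlinarith

/-- no symmetry of a cluster is close to the identity -/
theorem small_trivial {X : Set E} {D R θ : ℝ} (hD : 0 < D) (hR : 0 < R) (h : SepDense X D R)
    (hcong : ∀ x ∈ X, ∀ y ∈ X, ∃ B : E ≃ₗᵢ[ℝ] E, Iso X (2 * R) x y B) (hθ : 0 ≤ θ)
    (hθd : 400 * (finrank ℝ E + 1) * θ ≤ 1000 * (4000 : ℝ)⁻¹ ^ (2 ^ (finrank ℝ E - 1)))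
    {x : E} (hx : x ∈ X) {A : E ≃ₗᵢ[ℝ] E} (hA : Iso X (2 * R) x x A) (hs : Nr A θ) : A = 1 := by
  have hsc : ∀ z : E, R • (R⁻¹ • z) = z := by
    intro z
    rw [smul_smul, mul_inv_cancel₀ hR.ne', one_smul]
  have hsc' : ∀ z : E, R⁻¹ • (R • z) = z := by
    intro z
    rw [smul_smul, inv_mul_cancel₀ hR.ne', one_smul]
  refine small_trivial_one (X := {v | R • v ∈ X}) (D := D / R) (θ := θ) (by positivity) ?_ ?_ hθ
    hθd (x := R⁻¹ • x) (by change R • (R⁻¹ • x) ∈ X; rw [hsc]; exact hx) (iso_scale hR hA) hs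
  · constructor
    · intro a ha b hb hab
      have h1 := h.sep _ ha _ hb (by
        intro h2
        apply hab
        rw [← hsc' a, ← hsc' b, h2])
      rw [← smul_sub, norm_smul, Real.norm_of_nonneg hR.le] at h1
      rw [div_le_iff₀ hR]
      linarith
    · intro q
      obtain ⟨y, hy, hyq⟩ := h.dens (R • q)
      refine ⟨R⁻¹ • y, by change R • (R⁻¹ • y) ∈ X; rw [hsc]; exact hy, ?_⟩
      have h1 : q - R⁻¹ • y = R⁻¹ • (R • q - y) := by rw [smul_sub, hsc']
      rw [h1, norm_smul, norm_inv, Real.norm_of_nonneg hR.le, inv_mul_le_iff₀ hR, mul_one]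
      exact hyq
  · intro a ha b hb
    obtain ⟨B, hB⟩ := hcong _ ha _ hb
    refine ⟨B, ?_⟩
    have := iso_scale hR hB
    rwa [hsc', hsc'] at this

/-- Counting. -/
theorem card_le_gen {X : Set E} {D R θ : ℝ} (hD : 0 < D) (hR : 0 < R) (h : SepDense X D R)
    (hcong : ∀ x ∈ X, ∀ y ∈ X, ∃ B : E ≃ₗᵢ[ℝ] E, Iso X (2 * R) x y B) (hθ : 0 < θ)
    (hθd : 400 * (finrank ℝ E + 1) * θ ≤ 1000 * (4000 : ℝ)⁻¹ ^ (2 ^ (finrank ℝ E - 1)))
    {x : E} (hx : x ∈ X) (s : Finset (E ≃ₗᵢ[ℝ] E)) (hs : ∀ A ∈ s, Iso X (2 * R) x x A) :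
    (s.card : ℝ) ≤ (1 + 2 / θ) ^ (finrank ℝ E ^ 2) := by
  classical
  have key : ∀ A ∈ s, ∀ B ∈ s, A ≠ B →
      θ ≤ ‖(A.toContinuousLinearEquiv : E →L[ℝ] E) - (B.toContinuousLinearEquiv : E →L[ℝ] E)‖ := by
    intro A hA B hB hne
    by_contra hcon
    push Not at hcon
    apply hne
    have hK : Iso X (2 * R) x x (B.symm * A) := (hs A hA).trans (hs B hB).symm
    have hKs : Nr (B.symm * A) θ := by
      intro v
      have h2 := ((A.toContinuousLinearEquiv : E →L[ℝ] E) -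
        (B.toContinuousLinearEquiv : E →L[ℝ] E)).le_opNorm v
      have h3 : ((A.toContinuousLinearEquiv : E →L[ℝ] E) -
        (B.toContinuousLinearEquiv : E →L[ℝ] E)) v = A v - B v := rfl
      rw [h3] at h2
      have h4 : 0 ≤ ‖v‖ := norm_nonneg v
      have h8 : (B.symm * A) v - v = B.symm (A v - B v) := by
        rw [map_sub, LinearIsometryEquiv.symm_apply_apply]; rfl
      rw [h8, LinearIsometryEquiv.norm_map]
      nlinarith
    have h5 := small_trivial hD hR h hcong hθ.le hθd hx hK hKs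
    ext v
    have h6 : (B.symm * A) v = v := by rw [h5]; rfl
    have h7 : B.symm (A v) = v := h6
    rw [← h7, LinearIsometryEquiv.apply_symm_apply, h7]
  have hinj : ∀ A ∈ s, ∀ B ∈ s, (A.toContinuousLinearEquiv : E →L[ℝ] E) =
      (B.toContinuousLinearEquiv : E →L[ℝ] E) → A = B := by
    intro A hA B hB heq
    by_contra hne
    have h1 := key A hA B hB hne
    rw [heq, sub_self, norm_zero] at h1
    linarith
  have hcard : (s.image (fun A => (A.toContinuousLinearEquiv : E →L[ℝ] E))).card = s.card := by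
    apply Finset.card_image_of_injOn
    intro A hA B hB heq
    exact hinj A hA B hB heq
  rw [← hcard]
  have hdim2 : finrank ℝ (E →L[ℝ] E) = finrank ℝ E ^ 2 := by
    have e := (LinearMap.toContinuousLinearMap : (E →ₗ[ℝ] E) ≃ₗ[ℝ] (E →L[ℝ] E))
    rw [← e.finrank_eq, finrank_linearMap, sq]
  rw [← hdim2]
  apply packing_gen _ _ hθ
  · intro c hc
    rw [Finset.mem_image] at hc
    obtain ⟨A, hA, rfl⟩ := hc
    apply ContinuousLinearMap.opNorm_le_bound _ zero_le_one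
    intro v
    have : ((A.toContinuousLinearEquiv : E →L[ℝ] E)) v = A v := rfl
    rw [this, LinearIsometryEquiv.norm_map, one_mul]
  · intro c hc d hd hne
    rw [Finset.mem_image] at hc hd
    obtain ⟨A, hA, rfl⟩ := hc
    obtain ⟨B, hB, rfl⟩ := hd
    apply key A hA B hB
    rintro rfl
    exact hne rfl

end

/-- the numerical estimate -/
theorem numeric (d : ℕ) {θ : ℝ}
    (hθ : 400 * (d + 1) * θ = 1000 * (4000 : ℝ)⁻¹ ^ (2 ^ (d - 1))) :
    1 + 2 / θ ≤ (4000 : ℝ) ^ (2 ^ d) := by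
  obtain ⟨N, hN⟩ : ∃ N : ℝ, N = (4000 : ℝ) ^ (2 ^ (d - 1)) := ⟨_, rfl⟩
  have hN0 : 0 < N := by rw [hN]; positivity
  have hd0 : (0 : ℝ) < d + 1 := by positivity
  rw [inv_pow, ← hN] at hθ
  have hθ2 : θ = 1000 / (400 * (d + 1) * N) := by
    field_simp
    field_simp at hθ
    linarith
  have h2 : 2 / θ = 4 / 5 * (d + 1) * N := by
    rw [hθ2]; field_simp; norm_num
  rw [h2]
  rcases Nat.eq_zero_or_pos d with hd | hd
  · subst hd
    have : N = 4000 := by rw [hN]; norm_num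
    rw [this]; norm_num
  · have h3 : (4000 : ℝ) ^ (2 ^ d) = N * N := by
      rw [hN, ← pow_add]; congr 1
      obtain ⟨e, rfl⟩ : ∃ e, d = e + 1 := ⟨d - 1, by omega⟩
      rw [Nat.add_sub_cancel, pow_succ]; ring
    rw [h3]
    have h4 : (d : ℝ) + 1 ≤ N := by
      have h5 : d - 1 < 2 ^ (d - 1) := Nat.lt_two_pow_self
      have h6 : 2 ^ (d - 1) < 4000 ^ (2 ^ (d - 1)) := Nat.lt_pow_self (by norm_num)
      have h7 : d + 1 ≤ 4000 ^ (2 ^ (d - 1)) := by omega
      rw [hN]; exact_mod_cast h7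
    have h8 : 4000 ≤ N := by
      rw [hN]
      calc (4000 : ℝ) = 4000 ^ 1 := by norm_num
        _ ≤ 4000 ^ (2 ^ (d - 1)) := pow_le_pow_right₀ (by norm_num) Nat.one_le_two_pow
    nlinarith

end Pool.Agent.Helper31.Del
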