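import Pool.Agent.Helper31.Del.Final

/-! Cluster groups of radius four times the covering radius: gap and order. -/

namespace Pool.Agent.Helper31.Del

open Module Pool.Agent.Helper65.Delone Metric Set
open scoped RealInnerProductSpace

section

variable {E : Type} [NormedAddCommGroup E] [InnerProductSpace ℝ E] [FiniteDimensional ℝ E]

theorem thin_affine {B : AffineSubspace ℝ E} (hB : (B : Set E).Nonempty)
    (hd : finrank ℝ B.direction + 1 ≤ finrank ℝ E) : Thin (B : Set E) := by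
  have h1 := Pool.Agent.Helper33.Del.thinComb (E := E) Unit {()} (fun _ => id) B
    (Finset.singleton_nonempty _) hB (fun _ _ => contDiff_id) (by simpa using hd)
  obtain ⟨n, hn, Ψ, hΨ, hsub⟩ := h1
  refine ⟨n, hn, Ψ, hΨ, ?_⟩
  intro b hb
  apply hsub
  exact ⟨b, hb, fun _ => 1, by simp, by simp⟩

theorem countable_of_sep {X : Set E} {m : ℝ} (hm : 0 < m)
    (hsep : ∀ x ∈ X, ∀ y ∈ X, x ≠ y → m ≤ ‖x - y‖) : X.Countable := by
  have h1 : X ⊆ ⋃ n : ℕ, {x | x ∈ X ∧ ‖(0 : E) - x‖ ≤ n} := by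
    intro x hx
    obtain ⟨n, hn⟩ := exists_nat_ge ‖(0 : E) - x‖
    exact mem_iUnion.2 ⟨n, hx, hn⟩
  apply Set.Countable.mono h1
  apply Set.countable_iUnion
  intro n
  exact (finiteNear X m hm hsep 0 n).countable

/-- no symmetry of a `2`-cluster is close to the identity if the covering radius is `1/2` -/
theorem gap_half {X : Set E} {D θ : ℝ} (hD : 0 < D) (h : SepDense X D (1 / 2))
    (hcong : ∀ x ∈ X, ∀ y ∈ X, ∃ B : E ≃ₗᵢ[ℝ] E, Iso X 2 x y B) (hθ : 0 ≤ θ)
    (hθd : 800 * (finrank ℝ E + 1) * θ ≤ 1)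
    {x : E} (hx : x ∈ X) {A : E ≃ₗᵢ[ℝ] E} (hA : Iso X 2 x x A) (hs : Nr A θ) : A = 1 := by
  by_contra hA1
  have hd0 : (0 : ℝ) ≤ finrank ℝ E := Nat.cast_nonneg _
  have hθ80 : θ ≤ 1 / 80 := by nlinarith
  have hfo : FiniteOrder E := finiteOrder finiteNear (existsPos lemM)
  obtain ⟨N, hN, hAN⟩ := hfo X D (1 / 2) hD h x hx A (by
    intro v hv
    apply hA
    linarith)
  have hfam : (x, A) ∈ Fam X θ 0 x :=
    ⟨hx, by change ‖x - x‖ ≤ 0; rw [sub_self, norm_zero], by rw [sub_zero]; exact ⟨hA, hs, N, hN, hAN⟩⟩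
  have hne : ∀ y ∈ X, ∃ A' ∈ Sym X θ 2 y, A' ≠ 1 := by
    intro y hy
    obtain ⟨B, hB⟩ := hcong x hx y hy
    have h1 := sym_conj hB (by norm_num) hfam
    have h2 := h1.2.2
    simp only [sub_self, map_zero, add_zero, sub_zero] at h2
    refine ⟨_, h2, ?_⟩
    intro h3
    apply hA1
    have h4 : A = B⁻¹ * (B * A * B⁻¹) * B := by group
    rw [h4, h3]; group
  -- the affine subspaces
  have hf : ∀ z ∈ X, ∃ f : E, ‖f - z‖ ≤ 2 * (finrank ℝ E + 1) ∧
      ∀ x' ∈ X, ‖x' - z‖ ≤ 3 / 2 → f ∈ LW X θ 0 x' := by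
    intro z hz
    obtain ⟨f, hf1, hf2⟩ := base_app base_all hD h.sep hθ (κ := 1 / 2) (s := 2) (t := 3 / 2)
      (by norm_num) (by norm_num) (by linarith) (by norm_num) (by norm_num) hz
    refine ⟨f, hf1, fun x' hx' hxn g hg => ?_⟩
    have h1 : g.1 = x' := by
      have h2 := hg.2.1
      rw [← sub_eq_zero, ← norm_le_zero_iff]; exact h2
    apply hf2 g.1 hg.1 (by rw [h1]; exact hxn)
    have h3 := hg.2.2
    rwa [sub_zero] at h3
  choose! f hf1 hf2 using hf
  have hfx : ∀ x' ∈ X, f x' ∈ LW X θ 0 x' := fun x' hx' =>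
    hf2 x' hx' x' hx' (by rw [sub_self, norm_zero]; norm_num)
  have hdim : ∀ x' ∈ X, finrank ℝ (LW X θ 0 x').direction + 1 ≤ finrank ℝ E := by
    intro y hy
    obtain ⟨A', hA', hA'1⟩ := hne y hy
    have h1 : (y, A') ∈ Fam X θ 0 y := by
      refine ⟨hy, ?_, by rw [sub_zero]; exact hA'⟩
      change ‖y - y‖ ≤ 0
      rw [sub_self, norm_zero]
    have h2 : Dir X θ 0 y ≤ fixSpace A' := fun v hv => hv _ h1
    have h3 := Submodule.finrank_mono h2
    have h4 := smallCodim A' (fun v => by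
      have := hA'.2.1 v
      have h5 := norm_nonneg v
      nlinarith) hA'1
    rw [LW_direction (hfx y hy)]
    omega
  -- near points
  have hz : ∀ q : E, ∃ z ∈ X, ‖q - z‖ ≤ 1 / 2 := h.dens
  choose z hz1 hz2 using hz
  have key := Pool.Agent.Helper68.Del.coverSurj E Pool.Agent.Helper33.Del.bddSurj E
    (fun q => ball q (1 / 8)) (fun q _ => f (z q)) (1 / 8 + 1 / 2 + 2 * (finrank ℝ E + 1))
    (⋃ x' ∈ X, (LW X θ 0 x' : Set E)) (fun q => isOpen_ball)
    (fun q => ⟨q, mem_ball_self (by norm_num)⟩) (fun q => continuousOn_const) (by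
      intro q q' hq'
      rw [mem_ball, dist_eq_norm] at hq'
      have h1 : f (z q) - q' = (f (z q) - z q) + (-(q - z q)) + (-(q' - q)) := by abel
      rw [h1]
      have h2 := hf1 (z q) (hz1 q)
      have h3 := hz2 q
      calc _ ≤ ‖(f (z q) - z q) + (-(q - z q))‖ + ‖-(q' - q)‖ := norm_add_le _ _
        _ ≤ ‖f (z q) - z q‖ + ‖-(q - z q)‖ + ‖-(q' - q)‖ := by gcongr; exact norm_add_le _ _
        _ ≤ _ := by rw [norm_neg, norm_neg]; linarith) (by
      intro q'
      have h1 : convexHull ℝ {y | ∃ j : E, q' ∈ ball j (1 / 8) ∧ y = f (z j)} ⊆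
          (LW X θ 0 (z q') : Set E) := by
        apply convexHull_min
        · rintro y ⟨j, hj, rfl⟩
          apply hf2 (z j) (hz1 j) (z q') (hz1 q')
          rw [mem_ball, dist_eq_norm] at hj
          have h2 : z q' - z j = -(q' - z q') + (q' - j) + (j - z j) := by abel
          rw [h2]
          calc _ ≤ ‖-(q' - z q') + (q' - j)‖ + ‖j - z j‖ := norm_add_le _ _
            _ ≤ ‖-(q' - z q')‖ + ‖q' - j‖ + ‖j - z j‖ := by gcongr; exact norm_add_le _ _
            _ ≤ 3 / 2 := by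
              rw [norm_neg]
              linarith [hz2 q', hz2 j]
        · exact (LW X θ 0 (z q')).convex
      refine h1.trans ?_
      exact subset_biUnion_of_mem (u := fun x' => (LW X θ 0 x' : Set E)) (hz1 q'))
  obtain ⟨p, hp⟩ := Pool.Agent.Helper68.Del.thinUnion E
    ((fun x' => (LW X θ 0 x' : Set E)) '' X) ((countable_of_sep hD h.sep).image _) (by
      rintro _ ⟨x', hx', rfl⟩
      exact thin_affine ⟨_, hfx x' hx'⟩ (hdim x' hx'))
  have h5 : p ∈ ⋃ x' ∈ X, (LW X θ 0 x' : Set E) := by rw [key]; exact mem_univ p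
  rw [mem_iUnion₂] at h5
  obtain ⟨x', hx', hpx⟩ := h5
  exact hp _ ⟨x', hx', rfl⟩ hpx

/-- no symmetry of a `4R`-cluster is close to the identity -/
theorem gap_four {X : Set E} {D R θ : ℝ} (hD : 0 < D) (hR : 0 < R) (h : SepDense X D R)
    (hcong : ∀ x ∈ X, ∀ y ∈ X, ∃ B : E ≃ₗᵢ[ℝ] E, Iso X (4 * R) x y B) (hθ : 0 ≤ θ)
    (hθd : 800 * (finrank ℝ E + 1) * θ ≤ 1)
    {x : E} (hx : x ∈ X) {A : E ≃ₗᵢ[ℝ] E} (hA : Iso X (4 * R) x x A) (hs : Nr A θ) : A = 1 := by
  obtain ⟨S, hS⟩ : ∃ S : ℝ, S = 2 * R := ⟨_, rfl⟩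
  have hS0 : 0 < S := by linarith
  have h4 : 4 * R = 2 * S := by rw [hS]; ring
  rw [h4] at hA hcong
  have hsc : ∀ z : E, S • (S⁻¹ • z) = z := by
    intro z
    rw [smul_smul, mul_inv_cancel₀ hS0.ne', one_smul]
  have hsc' : ∀ z : E, S⁻¹ • (S • z) = z := by
    intro z
    rw [smul_smul, inv_mul_cancel₀ hS0.ne', one_smul]
  refine gap_half (X := {v | S • v ∈ X}) (D := D / S) (θ := θ) (by positivity) ?_ ?_ hθ
    hθd (x := S⁻¹ • x) (by change S • (S⁻¹ • x) ∈ X; rw [hsc]; exact hx) (iso_scale hS0 hA) hs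
  · constructor
    · intro a ha b hb hab
      have h1 := h.sep _ ha _ hb (by
        intro h2
        apply hab
        rw [← hsc' a, ← hsc' b, h2])
      rw [← smul_sub, norm_smul, Real.norm_of_nonneg hS0.le] at h1
      rw [div_le_iff₀ hS0]
      linarith
    · intro q
      obtain ⟨y, hy, hyq⟩ := h.dens (S • q)
      refine ⟨S⁻¹ • y, by change S • (S⁻¹ • y) ∈ X; rw [hsc]; exact hy, ?_⟩
      have h1 : q - S⁻¹ • y = S⁻¹ • (S • q - y) := by rw [smul_sub, hsc']
      rw [h1, norm_smul, norm_inv, Real.norm_of_nonneg hS0.le, inv_mul_le_iff₀ hS0]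
      linarith
  · intro a ha b hb
    obtain ⟨B, hB⟩ := hcong _ ha _ hb
    refine ⟨B, ?_⟩
    have := iso_scale hS0 hB
    rwa [hsc', hsc'] at this

/-- Counting from a gap. -/
theorem card_le_of_gap {S : Set (E ≃ₗᵢ[ℝ] E)} {θ : ℝ} (hθ : 0 < θ)
    (hS : ∀ A ∈ S, ∀ B ∈ S, Nr (B.symm * A) θ → B.symm * A = 1)
    (s : Finset (E ≃ₗᵢ[ℝ] E)) (hs : ∀ A ∈ s, A ∈ S) :
    (s.card : ℝ) ≤ (1 + 2 / θ) ^ (finrank ℝ E ^ 2) := by
  classical
  have key : ∀ A ∈ s, ∀ B ∈ s, A ≠ B →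
      θ ≤ ‖(A.toContinuousLinearEquiv : E →L[ℝ] E) - (B.toContinuousLinearEquiv : E →L[ℝ] E)‖ := by
    intro A hA B hB hne
    by_contra hcon
    push Not at hcon
    apply hne
    have hKs : Nr (B.symm * A) θ := by
      intro v
      have h2 := ((A.toContinuousLinearEquiv : E →L[ℝ] E) -
        (B.toContinuousLinearEquiv : E →L[ℝ] E)).le_opNorm v
      have h3 : ((A.toContinuousLinearEquiv : E →L[ℝ] E) -
        (B.toContinuousLinearEquiv : E →L[ℝ] E)) v = A v - B v := rfl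
      rw [h3] at h2
      have h4 : 0 ≤ ‖v‖ := norm_nonneg v
      have h8 : (B.symm * A) v - v = B.symm (A v - B v) := by
        rw [map_sub, LinearIsometryEquiv.symm_apply_apply]; rfl
      rw [h8, LinearIsometryEquiv.norm_map]
      nlinarith
    have h5 := hS A (hs A hA) B (hs B hB) hKs
    ext v
    have h6 : (B.symm * A) v = v := by rw [h5]; rfl
    have h7 : B.symm (A v) = v := h6
    rw [← h7, LinearIsometryEquiv.apply_symm_apply, h7]
  have hinj : ∀ A ∈ s, ∀ B ∈ s, (A.toContinuousLinearEquiv : E →L[ℝ] E) =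
      (B.toContinuousLinearEquiv : E →L[ℝ] E) → A = B := by
    intro A hA B hB heq
    by_contra hne
    have h1 := key A hA B hB hne
    rw [heq, sub_self, norm_zero] at h1
    linarith
  have hcard : (s.image (fun A => (A.toContinuousLinearEquiv : E →L[ℝ] E))).card = s.card := by
    apply Finset.card_image_of_injOn
    intro A hA B hB heq
    exact hinj A hA B hB heq
  rw [← hcard]
  have hdim2 : finrank ℝ (E →L[ℝ] E) = finrank ℝ E ^ 2 := by
    have e := (LinearMap.toContinuousLinearMap : (E →ₗ[ℝ] E) ≃ₗ[ℝ] (E →L[ℝ] E))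
    rw [← e.finrank_eq, finrank_linearMap, sq]
  rw [← hdim2]
  apply packing_gen _ _ hθ
  · intro c hc
    rw [Finset.mem_image] at hc
    obtain ⟨A, hA, rfl⟩ := hc
    apply ContinuousLinearMap.opNorm_le_bound _ zero_le_one
    intro v
    have : ((A.toContinuousLinearEquiv : E →L[ℝ] E)) v = A v := rfl
    rw [this, LinearIsometryEquiv.norm_map, one_mul]
  · intro c hc d hd hne
    rw [Finset.mem_image] at hc hd
    obtain ⟨A, hA, rfl⟩ := hc
    obtain ⟨B, hB, rfl⟩ := hd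
    apply key A hA B hB
    rintro rfl
    exact hne rfl

end

end Pool.Agent.Helper31.Del
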