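import Pool.Agent.Helper65.Delone.Defs

/-! Definitions and exact statements of the steps of the bound for the order of 2R-cluster
symmetry groups of Delaunay sets in every dimension. -/

namespace Pool.Agent.Helper31.Del

open Module Pool.Agent.Helper65.Delone

section

variable {V : Type*} [NormedAddCommGroup V] [InnerProductSpace ℝ V]

/-- the linear isometry `A` is `c`-near the identity -/
def Nr (A : V ≃ₗᵢ[ℝ] V) (c : ℝ) : Prop := ∀ v : V, ‖A v - v‖ ≤ c * ‖v‖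

/-- the affine isometry `a` is `δ`-near the identity -/
def ANr (a : V ≃ᵃⁱ[ℝ] V) (δ : ℝ) : Prop := ‖a 0‖ ≤ δ ∧ Nr a.linearIsometryEquiv δ

/-- `a` and its inverse map the points of `Y` in the ball of radius `ρ` about `0` into `Y` -/
def Good (Y : Set V) (ρ : ℝ) (a : V ≃ᵃⁱ[ℝ] V) : Prop :=
  ∀ p ∈ Y, ‖p‖ ≤ ρ → a p ∈ Y ∧ a⁻¹ p ∈ Y

/-- `t` is a translation of length at most `τ` that preserves `Y` on the ball of radius `ρ` -/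
def Tr (Y : Set V) (ρ τ : ℝ) (t : V) : Prop :=
  ‖t‖ ≤ τ ∧ ∀ p ∈ Y, ‖p‖ ≤ ρ → p + t ∈ Y ∧ p - t ∈ Y

end

section

variable (V : Type*) [NormedAddCommGroup V] [InnerProductSpace ℝ V]

/-- (A1) no small subgroups -/
def NoSmall : Prop :=
  ∀ (A : V ≃ₗᵢ[ℝ] V) (ε : ℝ), ε < 1 → (∀ n : ℕ, Nr (A ^ n) ε) → A = 1

/-- (A2) Frobenius' lemma -/
def Frob : Prop :=
  ∀ A B : V ≃ₗᵢ[ℝ] V, Nr B (1 / 4) →
    A * (A * B * A⁻¹ * B⁻¹) = (A * B * A⁻¹ * B⁻¹) * A → A * B * A⁻¹ * B⁻¹ = 1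

/-- (B1) one commutator -/
def CommStep : Prop :=
  ∀ (Y : Set V) (a b : V ≃ᵃⁱ[ℝ] V) (δ₁ δ₂ D ρ : ℝ), ANr a δ₁ → ANr b δ₂ → δ₁ ≤ D → δ₂ ≤ D →
    D ≤ 1 / 2 → ρ ≤ 1 → Good Y ρ a → Good Y ρ b →
    ANr (a * b * a⁻¹ * b⁻¹) (4 * δ₁ * δ₂) ∧ Good Y (ρ - 6 * D) (a * b * a⁻¹ * b⁻¹)

/-- (B2) near-identity local symmetries of `Y` commute up to a translation that is itself a local
symmetry of `Y` -/
def AlmostComm : Prop :=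
  ∀ (Y : Set V) (m r ρ β : ℝ) (g h : V ≃ᵃⁱ[ℝ] V), 0 < m →
    (∀ x ∈ Y, ∀ y ∈ Y, x ≠ y → m ≤ ‖x - y‖) → (0 : V) ∈ Y →
    Submodule.span ℝ {p | p ∈ Y ∧ ‖p‖ ≤ r} = ⊤ → β ≤ 1 / 8 → r + 24 * β ≤ ρ → ρ ≤ 1 →
    ANr g β → ANr h β → Good Y ρ g → Good Y ρ h →
    ∃ t : V, ‖t‖ ≤ 4 * β ^ 2 ∧ (∀ v : V, h (g v) = g (h v) + t) ∧
      ∀ p ∈ Y, ‖p‖ ≤ ρ - 6 * β → p + t ∈ Y ∧ p - t ∈ Y

/-- (C1) walking lemma: local translations are commensurable -/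
def Walk : Prop :=
  ∀ (Y : Set V) (ρ τ : ℝ) (k : ℕ) (t : Fin k → V) (v : V), (0 : V) ∈ Y →
    {p | p ∈ Y ∧ ‖p‖ ≤ ρ}.Finite → (3 * k + 3) * τ ≤ ρ → (∀ i, Tr Y ρ τ (t i)) → Tr Y ρ τ v →
    v ∈ Submodule.span ℝ (Set.range t) →
    ∃ M : ℕ, 0 < M ∧ M • v ∈ Submodule.span ℤ (Set.range t)

/-- (C2) a rotation of finite order near the identity that preserves a lattice up to finite index
is the identity on its span -/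
def RatRot : Prop :=
  ∀ (k : ℕ) (t : Fin k → V) (G : V ≃ₗᵢ[ℝ] V) (c : ℝ), LinearIndependent ℝ t → c < 1 → Nr G c →
    (∃ n : ℕ, 0 < n ∧ G ^ n = 1) →
    (∀ i, ∃ M : ℕ, 0 < M ∧ M • G (t i) ∈ Submodule.span ℤ (Set.range t)) → ∀ i, G (t i) = t i

/-- (D) common fixed points of commuting isometries -/
def CommonFix : Prop :=
  ∀ (𝒢 : Set (V ≃ᵃⁱ[ℝ] V)) (z : V) (D : ℝ), 0 ≤ D →
    (∀ g ∈ 𝒢, ∀ h ∈ 𝒢, ∀ v : V, g (h v) = h (g v)) → (∀ g ∈ 𝒢, ∃ c : V, ‖c - z‖ ≤ D ∧ g c = c) →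
    ∃ f : V, ‖f - z‖ ≤ D * (finrank ℝ V + 1) ∧ ∀ g ∈ 𝒢, g f = f

/-- (L) the base lemma: a family of local symmetries of `X` about points near `z` (given as pairs
of a centre and a linear isometry) has a common fixed point near `z` -/
def Base : Prop :=
  ∀ (X : Set V) (m κ θ : ℝ) (z : V) (𝒢 : Set (V × (V ≃ₗᵢ[ℝ] V))), 0 < m →
    (∀ x ∈ X, ∀ y ∈ X, x ≠ y → m ≤ ‖x - y‖) → z ∈ X → 0 < κ → κ ≤ 1 → 0 ≤ θ →
    400 * (finrank ℝ V + 1) * θ ≤ κ →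
    (∀ g ∈ 𝒢, ‖g.1 - z‖ ≤ 2 ∧ Nr g.2 θ ∧ (∃ n : ℕ, 0 < n ∧ g.2 ^ n = 1) ∧
      ∀ p ∈ X, ‖p - z‖ ≤ κ → g.1 + g.2 (p - g.1) ∈ X ∧ g.1 + g.2.symm (p - g.1) ∈ X) →
    ∃ f : V, ‖f - z‖ ≤ 2 * (finrank ℝ V + 1) ∧ ∀ g ∈ 𝒢, g.2 (f - g.1) = f - g.1

end

section

variable {E : Type*} [NormedAddCommGroup E] [InnerProductSpace ℝ E]

/-- contained in the image of a `C¹` map from a space of smaller dimension -/
def Thin (S : Set E) : Prop :=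
  ∃ n : ℕ, n < finrank ℝ E ∧ ∃ Ψ : (Fin n → ℝ) → E, ContDiff ℝ 1 Ψ ∧ S ⊆ Set.range Ψ

/-- the near-identity symmetries of finite order of the `s`-cluster at `x` -/
def Sym (X : Set E) (θ s : ℝ) (x : E) : Set (E ≃ₗᵢ[ℝ] E) :=
  {A | Iso X s x x A ∧ Nr A θ ∧ ∃ n : ℕ, 0 < n ∧ A ^ n = 1}

end

section

variable (E : Type*) [NormedAddCommGroup E] [InnerProductSpace ℝ E]

/-- (S1) continuous maps of bounded displacement are surjective -/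
def BddSurj : Prop :=
  ∀ (φ : E → E) (C : ℝ), Continuous φ → (∀ q, ‖φ q - q‖ ≤ C) → Function.Surjective φ

/-- (S2) local maps of bounded displacement whose local convex combinations stay in `Z` -/
def CoverSurj : Prop :=
  ∀ (J : Type) (U : J → Set E) (h : J → E → E) (C : ℝ) (Z : Set E), (∀ j, IsOpen (U j)) →
    (∀ q, ∃ j, q ∈ U j) → (∀ j, ContinuousOn (h j) (U j)) → (∀ j, ∀ q ∈ U j, ‖h j q - q‖ ≤ C) →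
    (∀ q, convexHull ℝ {y | ∃ j, q ∈ U j ∧ y = h j q} ⊆ Z) → Z = Set.univ

/-- (S3) countably many thin sets do not cover -/
def ThinUnion : Prop :=
  ∀ 𝒮 : Set (Set E), 𝒮.Countable → (∀ S ∈ 𝒮, Thin S) → ∃ p : E, ∀ S ∈ 𝒮, p ∉ S

/-- (S4) affine combinations of few `C¹` maps on a small affine subspace form a thin set -/
def ThinComb : Prop :=
  ∀ (ι : Type) (s : Finset ι) (p : ι → E → E) (B : AffineSubspace ℝ E), s.Nonempty →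
    (B : Set E).Nonempty → (∀ i ∈ s, ContDiff ℝ 1 (p i)) →
    finrank ℝ B.direction + s.card ≤ finrank ℝ E →
    Thin {y | ∃ b ∈ B, ∃ w : ι → ℝ, ∑ i ∈ s, w i = 1 ∧ y = ∑ i ∈ s, w i • p i b}

/-- (S5) the dimension count for bad families of affine subspaces -/
def ChainDim : Prop :=
  ∀ (σ : Finset (AffineSubspace ℝ E)) (f : AffineSubspace ℝ E → E), 2 ≤ σ.card →
    (∀ W ∈ σ, finrank ℝ W.direction + 2 ≤ finrank ℝ E) → (∀ W ∈ σ, f W ∉ W) →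
    (∀ W ∈ σ, ∀ W' ∈ σ, W' ≠ W → f W ∈ W') → ∀ W₁ ∈ σ,
    finrank ℝ (sInf {W | W ∈ σ ∧ W ≠ W₁} : AffineSubspace ℝ E).direction + σ.card ≤ finrank ℝ E

/-- (S6) a smooth map into `F` that goes to `C` near `C` -/
def CutMap : Prop :=
  ∀ (C F : AffineSubspace ℝ E) (c₁ : ℝ), C ≤ F → (F : Set E).Nonempty → 0 ≤ c₁ →
    ∃ p : E → E, ContDiff ℝ 1 p ∧ (∀ b, p b ∈ F) ∧ (∀ b, ∀ c ∈ C, ‖b - c‖ ≤ c₁ → p b ∈ C) ∧
      ∀ b, ∀ f ∈ F, ‖p b - b‖ ≤ ‖b - f‖ + c₁ + 1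

/-- (S) the topological theorem -/
def Topo : Prop :=
  ∀ (X : Set E) (m η K C₀ : ℝ) (W : E → AffineSubspace ℝ E), 0 < m → SepDense X m 1 →
    0 < η → η ≤ 1 / 4 → 8 * √η ≤ K → (∀ x ∈ X, finrank ℝ (W x).direction + 2 ≤ finrank ℝ E) →
    (∀ x ∈ X, ∀ y ∈ X, ‖x - y‖ ≤ K → W x = W y) →
    (∀ z ∈ X, ∃ f : E, ‖f - z‖ ≤ C₀ ∧ ∀ x ∈ X, ‖x - z‖ ≤ 2 - η → f ∈ W x) → False

/-- (K) the locally constant field of affine subspaces -/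
def Levels : Prop :=
  ∀ (X : Set E) (m θ : ℝ), 0 < m → SepDense X m 1 →
    (∀ x ∈ X, ∀ y ∈ X, ∃ B : E ≃ₗᵢ[ℝ] E, Iso X 2 x y B) → 0 ≤ θ →
    (400 * (finrank ℝ E + 1) * θ ≤ 1000 * (4000 : ℝ)⁻¹ ^ (2 ^ (finrank ℝ E - 1))) →
    (∀ x ∈ X, ∃ A ∈ Sym X θ 2 x, A ≠ 1) →
    ∃ (η K C₀ : ℝ) (W : E → AffineSubspace ℝ E), 0 < η ∧ η ≤ 1 / 4 ∧ 8 * √η ≤ K ∧
      (∀ x ∈ X, finrank ℝ (W x).direction + 2 ≤ finrank ℝ E) ∧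
      (∀ x ∈ X, ∀ y ∈ X, ‖x - y‖ ≤ K → W x = W y) ∧
      ∀ z ∈ X, ∃ f : E, ‖f - z‖ ≤ C₀ ∧ ∀ x ∈ X, ‖x - z‖ ≤ 2 - η → f ∈ W x

end

end Pool.Agent.Helper31.Del
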