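import Pool.Agent.Helper31.Del.Weak

/-! Orders of finite orthogonal groups with a gap (Jordan's theorem, elementary form). -/

namespace Pool.Agent.Helper31.Del

open Module Pool.Agent.Helper65.Delone Metric Set
open scoped RealInnerProductSpace

section comm

variable {V : Type*} [NormedAddCommGroup V] [InnerProductSpace ℝ V]

theorem Nr.mul_comm_bound {A B : V ≃ₗᵢ[ℝ] V} {a b : ℝ} (ha : Nr A a) (hb : Nr B b) (ha0 : 0 ≤ a)
    (hb0 : 0 ≤ b) : Nr (A * B * A⁻¹ * B⁻¹) (2 * a * b) := by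
  intro v
  obtain ⟨w, hw⟩ : ∃ w : V, w = A⁻¹ (B⁻¹ v) := ⟨_, rfl⟩
  have hwn : ‖w‖ = ‖v‖ := by
    rw [hw]
    exact (LinearIsometryEquiv.norm_map A.symm _).trans (LinearIsometryEquiv.norm_map B.symm _)
  have hv : v = B (A w) := by
    rw [hw]
    have h1 : A (A⁻¹ (B⁻¹ v)) = B⁻¹ v := A.apply_symm_apply _
    rw [h1]
    exact (B.apply_symm_apply v).symm
  have h1 : (A * B * A⁻¹ * B⁻¹) v = A (B w) := by rw [hw]; rfl
  rw [h1]
  have h2 : A (B w) - v = (A (B w - w) - (B w - w)) - (B (A w - w) - (A w - w)) := by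
    rw [hv, map_sub, map_sub]; abel
  rw [h2]
  have h3 : ‖A (B w - w) - (B w - w)‖ ≤ a * (b * ‖w‖) :=
    (ha _).trans (mul_le_mul_of_nonneg_left (hb w) ha0)
  have h4 : ‖B (A w - w) - (A w - w)‖ ≤ b * (a * ‖w‖) :=
    (hb _).trans (mul_le_mul_of_nonneg_left (ha w) hb0)
  calc _ ≤ ‖A (B w - w) - (B w - w)‖ + ‖B (A w - w) - (A w - w)‖ := norm_sub_le _ _
    _ ≤ a * (b * ‖w‖) + b * (a * ‖w‖) := add_le_add h3 h4
    _ = 2 * a * b * ‖v‖ := by rw [hwn]; ring

/-- iterated commutators with `A` -/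
def cseq (A B : V ≃ₗᵢ[ℝ] V) : ℕ → (V ≃ₗᵢ[ℝ] V)
  | 0 => B
  | n + 1 => A * cseq A B n * A⁻¹ * (cseq A B n)⁻¹

theorem cseq_near {A B : V ≃ₗᵢ[ℝ] V} (hA : Nr A (1 / 4)) (hB : Nr B (1 / 4)) (n : ℕ) :
    Nr (cseq A B n) (1 / 4 * (1 / 2) ^ n) := by
  induction n with
  | zero => simpa [cseq] using hB
  | succ n ih =>
    have h1 := Nr.mul_comm_bound hA ih (by norm_num) (by positivity)
    have h2 : 2 * (1 / 4 : ℝ) * (1 / 4 * (1 / 2) ^ n) = 1 / 4 * (1 / 2) ^ (n + 1) := by ring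
    rw [h2] at h1
    exact h1

theorem cseq_mem {G : Subgroup (V ≃ₗᵢ[ℝ] V)} {A B : V ≃ₗᵢ[ℝ] V} (hA : A ∈ G) (hB : B ∈ G)
    (n : ℕ) : cseq A B n ∈ G := by
  induction n with
  | zero => exact hB
  | succ n ih => exact G.mul_mem (G.mul_mem (G.mul_mem hA ih) (G.inv_mem hA)) (G.inv_mem ih)

/-- elements near the identity of a group with a gap commute -/
theorem near_commute {G : Subgroup (V ≃ₗᵢ[ℝ] V)} {θ : ℝ} (hθ : 0 < θ)
    (hgap : ∀ A ∈ G, Nr A θ → A = 1) {A B : V ≃ₗᵢ[ℝ] V} (hA : A ∈ G) (hB : B ∈ G)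
    (hA4 : Nr A (1 / 4)) (hB4 : Nr B (1 / 4)) : A * B = B * A := by
  have hF := Pool.Agent.Helper68.Del.frob V
  -- some term is trivial
  obtain ⟨n, hn⟩ : ∃ n : ℕ, cseq A B n = 1 := by
    obtain ⟨n, hn⟩ := exists_pow_lt_of_lt_one hθ (by norm_num : (1 / 2 : ℝ) < 1)
    refine ⟨n, hgap _ (cseq_mem hA hB n) ?_⟩
    intro v
    have h1 := cseq_near hA4 hB4 n v
    have h2 : 1 / 4 * (1 / 2 : ℝ) ^ n ≤ θ := by
      have : (0 : ℝ) ≤ (1 / 2) ^ n := by positivity
      linarith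
    exact h1.trans (mul_le_mul_of_nonneg_right h2 (norm_nonneg v))
  -- descend
  have hdesc : ∀ k : ℕ, cseq A B (k + 2) = 1 → cseq A B (k + 1) = 1 := by
    intro k hk
    have h1 : Nr (cseq A B k) (1 / 4) := by
      intro v
      have h2 := cseq_near hA4 hB4 k v
      have h3 : 1 / 4 * (1 / 2 : ℝ) ^ k ≤ 1 / 4 := by
        have : (1 / 2 : ℝ) ^ k ≤ 1 := pow_le_one₀ (by norm_num) (by norm_num)
        linarith
      exact h2.trans (mul_le_mul_of_nonneg_right h3 (norm_nonneg v))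
    apply hF A (cseq A B k) h1
    have h4 : A * cseq A B (k + 1) * A⁻¹ * (cseq A B (k + 1))⁻¹ = 1 := hk
    have h5 : A * cseq A B (k + 1) = cseq A B (k + 1) * A := by
      have h6 : A * cseq A B (k + 1) * A⁻¹ * (cseq A B (k + 1))⁻¹ * (cseq A B (k + 1) * A) =
          1 * (cseq A B (k + 1) * A) := by rw [h4]
      rw [one_mul] at h6
      rw [← h6]; group
    exact h5
  have h1 : ∀ k : ℕ, cseq A B (k + 1) = 1 → cseq A B 1 = 1 := by
    intro k
    induction k with
    | zero => exact id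
    | succ k ih => intro h; exact ih (hdesc k h)
  have h2 : cseq A B 1 = 1 := by
    rcases n with _ | n
    · have hB1 : B = 1 := hn
      change A * B * A⁻¹ * B⁻¹ = 1
      rw [hB1]; group
    · exact h1 n hn
  have h3 : A * B * A⁻¹ * B⁻¹ = 1 := h2
  have h4 : A * B * A⁻¹ * B⁻¹ * (B * A) = 1 * (B * A) := by rw [h3]
  rw [one_mul] at h4
  rw [← h4]; group

end comm

section span

variable {E : Type*} [NormedAddCommGroup E] [InnerProductSpace ℝ E] [FiniteDimensional ℝ E]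

/-- a linear isometry as a continuous linear map -/
noncomputable def toCL (A : E ≃ₗᵢ[ℝ] E) : E →L[ℝ] E := (A.toContinuousLinearEquiv : E →L[ℝ] E)

theorem toCL_apply (A : E ≃ₗᵢ[ℝ] E) (v : E) : toCL A v = A v := rfl

/-- a commutative algebra generated by linear isometries has dimension at most that of the space -/
theorem comm_span_finrank (S : Set (E ≃ₗᵢ[ℝ] E)) (hS : ∀ a ∈ S, ∀ b ∈ S, a * b = b * a) :
    finrank ℝ (Subalgebra.toSubmodule (Algebra.adjoin ℝ (toCL '' S))) ≤ finrank ℝ E := by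
  set 𝒜 := Algebra.adjoin ℝ (toCL '' S) with h𝒜
  have hcomm : ∀ a ∈ 𝒜, ∀ b ∈ 𝒜, a * b = b * a := by
    intro a ha b hb
    have h1 : ∀ x ∈ toCL '' S, ∀ y ∈ toCL '' S, Commute x y := by
      rintro _ ⟨x, hx, rfl⟩ _ ⟨y, hy, rfl⟩
      ext v
      have := congrArg (fun g : E ≃ₗᵢ[ℝ] E => g v) (hS x hx y hy)
      exact this
    have h2 : ∀ x ∈ toCL '' S, Commute a x := by
      intro x hx
      exact Algebra.commute_of_mem_adjoin_of_forall_mem_commute ha (fun y hy => h1 x hx y hy) |>.symm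
    exact (Algebra.commute_of_mem_adjoin_of_forall_mem_commute hb (fun y hy => h2 y hy))
  -- evaluation
  let ev : E → (E →L[ℝ] E) →ₗ[ℝ] E := fun v =>
    { toFun := fun T => T v, map_add' := fun _ _ => rfl, map_smul' := fun _ _ => rfl }
  let W : E → Submodule ℝ E := fun v => (Subalgebra.toSubmodule 𝒜).map (ev v)
  -- a vector with maximal orbit
  obtain ⟨v, hv⟩ : ∃ v : E, ∀ u : E, finrank ℝ (W u) ≤ finrank ℝ (W v) := by
    have hbd : BddAbove (Set.range fun u => finrank ℝ (W u)) :=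
      ⟨finrank ℝ E, by rintro _ ⟨u, rfl⟩; exact Submodule.finrank_le _⟩
    obtain ⟨v, hv⟩ := Nat.sSup_mem (Set.range_nonempty fun u => finrank ℝ (W u)) hbd
    refine ⟨v, fun u => ?_⟩
    simp only at hv
    rw [hv]
    exact le_csSup hbd ⟨u, rfl⟩
  have hWmem : ∀ x : E, x ∈ W v ↔ ∃ T ∈ 𝒜, T v = x := by
    intro x
    constructor
    · rintro ⟨T, hT, rfl⟩; exact ⟨T, hT, rfl⟩
    · rintro ⟨T, hT, rfl⟩; exact ⟨T, hT, rfl⟩
  have hWinv : ∀ T ∈ 𝒜, ∀ x ∈ W v, T x ∈ W v := by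
    intro T hT x hx
    obtain ⟨T', hT', rfl⟩ := (hWmem x).1 hx
    exact (hWmem _).2 ⟨T * T', 𝒜.mul_mem hT hT', rfl⟩
  have hWperp : ∀ T ∈ 𝒜, ∀ x ∈ (W v)ᗮ, T x ∈ (W v)ᗮ := by
    intro T hT
    induction hT using Algebra.adjoin_induction with
    | mem T hT =>
      obtain ⟨A, hA, rfl⟩ := hT
      intro x hx w hw
      -- `A` maps `W v` onto itself
      have h1 : (W v).map (A.toLinearEquiv : E →ₗ[ℝ] E) = W v := by
        apply Submodule.eq_of_le_of_finrank_eq
        · rintro _ ⟨y, hy, rfl⟩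
          exact hWinv (toCL A) (Algebra.subset_adjoin ⟨A, hA, rfl⟩) y hy
        · exact LinearEquiv.finrank_map_eq A.toLinearEquiv (W v)
      rw [← h1] at hw
      obtain ⟨w', hw', rfl⟩ := hw
      change ⟪A w', A x⟫ = 0
      rw [LinearIsometryEquiv.inner_map_map]
      exact hx w' hw'
    | algebraMap r =>
      intro x hx
      change r • x ∈ _
      exact Submodule.smul_mem _ r hx
    | add a b _ _ ha hb =>
      intro x hx
      exact Submodule.add_mem _ (ha x hx) (hb x hx)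
    | mul a b _ _ ha hb =>
      intro x hx
      exact ha _ (hb x hx)
  -- the evaluation at `v` is injective on `𝒜`
  have hinj : ∀ T ∈ 𝒜, T v = 0 → T = 0 := by
    intro T hT hTv
    by_contra hT0
    have hTW : ∀ x ∈ W v, T x = 0 := by
      intro x hx
      obtain ⟨T', hT', rfl⟩ := (hWmem x).1 hx
      have h1 := congrArg (fun F : E →L[ℝ] E => F v) (hcomm T hT T' hT')
      change T (T' v) = T' (T v) at h1
      rw [h1, hTv, map_zero]
    obtain ⟨u, hu, hTu⟩ : ∃ u ∈ (W v)ᗮ, T u ≠ 0 := by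
      by_contra hcon
      push Not at hcon
      apply hT0
      ext x
      obtain ⟨y, hy, z, hz, rfl⟩ := (W v).exists_add_mem_mem_orthogonal x
      change T (y + z) = 0
      rw [map_add, hTW y hy, hcon z hz, add_zero]
    -- compare the orbits of `v` and `v + u`
    let P : W (v + u) →ₗ[ℝ] W v := (W v).orthogonalProjectionOnto.toLinearMap.comp (W (v + u)).subtype
    have hPval : ∀ T' : E →L[ℝ] E, T' ∈ 𝒜 → ∀ h : T' (v + u) ∈ W (v + u),
        ((P ⟨T' (v + u), h⟩ : W v) : E) = T' v := by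
      intro T' hT' h
      change (((W v).orthogonalProjectionOnto (T' (v + u)) : W v) : E) = T' v
      rw [map_add, map_add, Submodule.coe_add]
      have h1 : (W v).orthogonalProjectionOnto (T' u) = 0 :=
        Submodule.orthogonalProjectionOnto_eq_zero_iff.2 (hWperp T' hT' u hu)
      have h2 : (((W v).orthogonalProjectionOnto (T' v) : W v) : E) = T' v := by
        have h3 : T' v ∈ W v := (hWmem _).2 ⟨T', hT', rfl⟩
        exact (Submodule.starProjection_eq_self_iff).2 h3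
      rw [h1, h2, Submodule.coe_zero, add_zero]
    have hmem : ∀ T' ∈ 𝒜, T' (v + u) ∈ W (v + u) := fun T' hT' => ⟨T', hT', rfl⟩
    have hsurj : Function.Surjective P := by
      rintro ⟨x, hx⟩
      obtain ⟨T', hT', rfl⟩ := (hWmem x).1 hx
      exact ⟨⟨T' (v + u), hmem T' hT'⟩, Subtype.ext (hPval T' hT' _)⟩
    have hker : (⟨T (v + u), hmem T hT⟩ : W (v + u)) ∈ LinearMap.ker P := by
      rw [LinearMap.mem_ker]
      apply Subtype.ext
      rw [hPval T hT, hTv]; rfl
    have hne : LinearMap.ker P ≠ ⊥ := by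
      intro hbot
      rw [hbot, Submodule.mem_bot] at hker
      apply hTu
      have h1 : T (v + u) = 0 := congrArg Subtype.val hker
      rwa [map_add, hTv, zero_add] at h1
    have h1 := LinearMap.finrank_range_add_finrank_ker P
    rw [LinearMap.range_eq_top.2 hsurj, finrank_top] at h1
    have h2 : 0 < finrank ℝ (LinearMap.ker P) := by
      rw [Module.finrank_pos_iff]
      exact (Submodule.nontrivial_iff_ne_bot).2 hne
    have h3 := hv (v + u)
    omega
  -- conclusion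
  let F : Subalgebra.toSubmodule 𝒜 →ₗ[ℝ] E := (ev v).comp (Subalgebra.toSubmodule 𝒜).subtype
  have hF : Function.Injective F := by
    rw [injective_iff_map_eq_zero]
    rintro ⟨T, hT⟩ h
    exact Subtype.ext (hinj T hT h)
  exact LinearMap.finrank_le_finrank_of_injective hF

end span

end Pool.Agent.Helper31.Del
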