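import Pool.Agent.Helper31.Del.Base2
import Pool.Agent.Helper65.Delone.C
import Pool.Agent.Helper65.Delone.Final

/-! The locally constant field of affine subspaces. -/

namespace Pool.Agent.Helper31.Del

open Module Pool.Agent.Helper65.Delone
open scoped RealInnerProductSpace

variable {E : Type*} [NormedAddCommGroup E] [InnerProductSpace ℝ E]

/-- the radii -/
noncomputable def kap (n : ℕ) : ℝ := 1000 * (4000 : ℝ)⁻¹ ^ (2 ^ n)

theorem kap_pos (n : ℕ) : 0 < kap n := by unfold kap; positivity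

theorem kap_zero : kap 0 = 1 / 4 := by unfold kap; norm_num

theorem kap_succ (n : ℕ) : kap (n + 1) = kap n ^ 2 / 1000 := by
  unfold kap
  rw [pow_succ 2 n, pow_mul]
  ring

theorem kap_le (n : ℕ) : kap n ≤ 1 / 4 := by
  induction n with
  | zero => exact kap_zero.le
  | succ n ih =>
    rw [kap_succ]
    nlinarith [kap_pos n]

theorem kap_succ_le (n : ℕ) : kap (n + 1) ≤ kap n / 4000 := by
  rw [kap_succ]
  nlinarith [kap_pos n, kap_le n]

theorem kap_anti : Antitone kap := by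
  apply antitone_nat_of_succ_le
  intro n
  have := kap_succ_le n
  linarith [kap_pos n]

theorem sym_mono {X : Set E} {θ s s' : ℝ} (h : s ≤ s') {x : E} {A : E ≃ₗᵢ[ℝ] E}
    (hA : A ∈ Sym X θ s' x) : A ∈ Sym X θ s x :=
  ⟨fun v hv => hA.1 v (hv.trans h), hA.2⟩

/-- the family of symmetries at level `κ` about `x` -/
def Fam (X : Set E) (θ κ : ℝ) (x : E) : Set (E × (E ≃ₗᵢ[ℝ] E)) :=
  {g | g.1 ∈ X ∧ ‖g.1 - x‖ ≤ κ ∧ g.2 ∈ Sym X θ (2 - κ) g.1}

/-- the common fixed vectors -/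
def Dir (X : Set E) (θ κ : ℝ) (x : E) : Submodule ℝ E where
  carrier := {v | ∀ g ∈ Fam X θ κ x, g.2 v = v}
  add_mem' := by
    intro a b ha hb g hg
    rw [map_add, ha g hg, hb g hg]
  zero_mem' := by
    intro g _
    exact map_zero _
  smul_mem' := by
    intro c v hv g hg
    rw [map_smul, hv g hg]

/-- the common fixed points -/
def LW (X : Set E) (θ κ : ℝ) (x : E) : AffineSubspace ℝ E where
  carrier := {p | ∀ g ∈ Fam X θ κ x, g.2 (p - g.1) = p - g.1}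
  smul_vsub_vadd_mem' := by
    intro c p₁ p₂ p₃ h1 h2 h3 g hg
    have e1 : (c • (p₁ -ᵥ p₂) +ᵥ p₃ : E) - g.1 =
        c • ((p₁ - g.1) - (p₂ - g.1)) + (p₃ - g.1) := by
      rw [vsub_eq_sub, vadd_eq_add]
      have : p₁ - p₂ = (p₁ - g.1) - (p₂ - g.1) := by abel
      rw [this]; abel
    rw [e1, map_add, map_smul, map_sub, h1 g hg, h2 g hg, h3 g hg]

theorem mem_LW {X : Set E} {θ κ : ℝ} {x p : E} :
    p ∈ LW X θ κ x ↔ ∀ g ∈ Fam X θ κ x, g.2 (p - g.1) = p - g.1 := Iff.rfl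

theorem mem_Dir {X : Set E} {θ κ : ℝ} {x v : E} :
    v ∈ Dir X θ κ x ↔ ∀ g ∈ Fam X θ κ x, g.2 v = v := Iff.rfl

theorem LW_direction {X : Set E} {θ κ : ℝ} {x p : E} (hp : p ∈ LW X θ κ x) :
    (LW X θ κ x).direction = Dir X θ κ x := by
  ext v
  rw [← AffineSubspace.vadd_mem_iff_mem_direction v hp, vadd_eq_add, mem_LW, mem_Dir]
  apply forall_congr'
  intro g
  apply forall_congr'
  intro hg
  have h1 : v + p - g.1 = v + (p - g.1) := by abel
  rw [h1, map_add, hp g hg]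
  constructor
  · intro h; exact add_right_cancel h
  · intro h; rw [h]

/-- comparison of two families -/
theorem Fam_subset {X : Set E} {θ κ κ' : ℝ} {x y : E} (h : ‖y - x‖ ≤ κ' - κ) :
    Fam X θ κ y ⊆ Fam X θ κ' x := by
  rintro g ⟨h1, h2, h3⟩
  refine ⟨h1, ?_, sym_mono (by linarith [norm_nonneg (y - x)]) h3⟩
  have h4 : g.1 - x = (g.1 - y) + (y - x) := by abel
  rw [h4]
  calc _ ≤ ‖g.1 - y‖ + ‖y - x‖ := norm_add_le _ _
    _ ≤ κ' := by linarith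

theorem LW_le {X : Set E} {θ κ κ' : ℝ} {x y : E} (h : ‖y - x‖ ≤ κ' - κ) :
    LW X θ κ' x ≤ LW X θ κ y := fun _ hp g hg => hp g (Fam_subset h hg)

theorem Dir_le {X : Set E} {θ κ κ' : ℝ} {x y : E} (h : ‖y - x‖ ≤ κ' - κ) :
    Dir X θ κ' x ≤ Dir X θ κ y := fun _ hp g hg => hp g (Fam_subset h hg)

theorem mul_conj_pow (B A : E ≃ₗᵢ[ℝ] E) (n : ℕ) : (B * A * B⁻¹) ^ n = B * A ^ n * B⁻¹ := by
  induction n with
  | zero => simp
  | succ n ih => rw [pow_succ, ih, pow_succ]; group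

/-- transport of symmetries -/
theorem sym_conj {X : Set E} {θ κ : ℝ} {x y : E} {B : E ≃ₗᵢ[ℝ] E} (hB : Iso X 2 x y B)
    {g : E × (E ≃ₗᵢ[ℝ] E)} (hκ : κ ≤ 2) (hg : g ∈ Fam X θ κ x) :
    (y + B (g.1 - x), B * g.2 * B⁻¹) ∈ Fam X θ κ y := by
  obtain ⟨h1, h2, ⟨h3, h4, n, h5, h6⟩⟩ := hg
  have hBi : ∀ v, B (B⁻¹ v) = v := fun v => B.apply_symm_apply v
  have hBi' : ∀ v, B⁻¹ (B v) = v := fun v => B.symm_apply_apply v
  have hBn : ∀ v, ‖B⁻¹ v‖ = ‖v‖ := fun v => LinearIsometryEquiv.norm_map _ _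
  refine ⟨?_, ?_, ?_, ?_, n, h5, by rw [mul_conj_pow, h6]; group⟩
  · exact (hB (g.1 - x) (by linarith)).1 (by rwa [add_sub_cancel])
  · change ‖y + B (g.1 - x) - y‖ ≤ κ
    rw [add_sub_cancel_left, LinearIsometryEquiv.norm_map]; exact h2
  · intro v hv
    have key : ∀ u : E, ‖u‖ ≤ 2 - κ → (y + B (g.1 - x) + B u ∈ X ↔ g.1 + u ∈ X) := by
      intro u hu
      have h7 := hB (g.1 - x + u) (by
        calc _ ≤ ‖g.1 - x‖ + ‖u‖ := norm_add_le _ _
          _ ≤ 2 := by linarith)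
      have h8 : x + (g.1 - x + u) = g.1 + u := by abel
      rw [h8, map_add, ← add_assoc] at h7
      exact h7.symm
    have h9 : v = B (B⁻¹ v) := (hBi v).symm
    change y + B (g.1 - x) + v ∈ X ↔ y + B (g.1 - x) + B (g.2 (B⁻¹ v)) ∈ X
    rw [key (g.2 (B⁻¹ v)) (by rw [LinearIsometryEquiv.norm_map, hBn]; exact hv),
      ← h3 (B⁻¹ v) (by rw [hBn]; exact hv), ← key (B⁻¹ v) (by rw [hBn]; exact hv), hBi]
  · intro v
    change ‖B (g.2 (B⁻¹ v)) - v‖ ≤ θ * ‖v‖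
    have h10 : B (g.2 (B⁻¹ v)) - v = B (g.2 (B⁻¹ v) - B⁻¹ v) := by rw [map_sub, hBi]
    rw [h10, LinearIsometryEquiv.norm_map]
    have := h4 (B⁻¹ v)
    rwa [hBn] at this

theorem finrank_Dir_le [FiniteDimensional ℝ E] {X : Set E} {θ κ : ℝ} {x y : E}
    {B : E ≃ₗᵢ[ℝ] E} (hB : Iso X 2 y x B) (hκ : κ ≤ 2) :
    finrank ℝ (Dir X θ κ x) ≤ finrank ℝ (Dir X θ κ y) := by
  have h1 : (Dir X θ κ x).map (B.symm.toLinearEquiv : E →ₗ[ℝ] E) ≤ Dir X θ κ y := by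
    rintro _ ⟨v, hv, rfl⟩ g hg
    have h2 := hv _ (sym_conj hB hκ hg)
    change g.2 (B.symm v) = B.symm v
    have h3 : B (g.2 (B.symm v)) = v := h2
    rw [LinearIsometryEquiv.eq_symm_apply]
    exact h3
  rw [← LinearEquiv.finrank_map_eq B.symm.toLinearEquiv (Dir X θ κ x)]
  exact Submodule.finrank_mono h1

theorem eq_LW [FiniteDimensional ℝ E] {X : Set E} {θ κ κ' : ℝ} {x : E} (h : κ' ≤ κ)
    (hne : ((LW X θ κ x : AffineSubspace ℝ E) : Set E).Nonempty)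
    (hd : finrank ℝ (Dir X θ κ x) = finrank ℝ (Dir X θ κ' x)) :
    LW X θ κ x = LW X θ κ' x := by
  have h0 : ‖x - x‖ ≤ κ - κ' := by rw [sub_self, norm_zero]; linarith
  have hle : LW X θ κ x ≤ LW X θ κ' x := LW_le h0
  obtain ⟨p, hp⟩ := hne
  have hp' : p ∈ LW X θ κ' x := hle hp
  refine AffineSubspace.eq_of_direction_eq_of_nonempty_of_le ?_ ⟨p, hp⟩ hle
  rw [LW_direction hp, LW_direction hp']
  exact Submodule.eq_of_le_of_finrank_eq (Dir_le h0) hd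

/-- application of the base lemma -/
theorem base_app [FiniteDimensional ℝ E] (hBase : Base E) {X : Set E} {m θ κ s t : ℝ}
    (hm : 0 < m) (hsep : ∀ x ∈ X, ∀ y ∈ X, x ≠ y → m ≤ ‖x - y‖) (hθ : 0 ≤ θ) (hκ0 : 0 < κ)
    (hκ1 : κ ≤ 1) (hθκ : 400 * (finrank ℝ E + 1) * θ ≤ κ) (ht : t ≤ 2) (hs : κ + t ≤ s) {z : E}
    (hz : z ∈ X) :
    ∃ f : E, ‖f - z‖ ≤ 2 * (finrank ℝ E + 1) ∧
      ∀ x' ∈ X, ‖x' - z‖ ≤ t → ∀ A ∈ Sym X θ s x', A (f - x') = f - x' := by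
  obtain ⟨f, hf1, hf2⟩ := hBase X m κ θ z
    {g | g.1 ∈ X ∧ ‖g.1 - z‖ ≤ t ∧ g.2 ∈ Sym X θ s g.1} hm hsep hz hκ0 hκ1 hθ hθκ (by
      rintro g ⟨h1, h2, h3, h4, h5⟩
      refine ⟨by linarith, h4, h5, fun p hp hpn => ?_⟩
      have h6 : ‖p - g.1‖ ≤ s := by
        have h7 : p - g.1 = (p - z) + -(g.1 - z) := by abel
        rw [h7]
        calc _ ≤ ‖p - z‖ + ‖-(g.1 - z)‖ := norm_add_le _ _
          _ ≤ s := by rw [norm_neg]; linarith
      refine ⟨?_, ?_⟩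
      · exact (h3 (p - g.1) h6).1 (by rwa [add_sub_cancel])
      · exact (h3.symm (p - g.1) h6).1 (by rwa [add_sub_cancel]))
  exact ⟨f, hf1, fun x' hx' hxn A hA => hf2 (x', A) ⟨hx', hxn, hA⟩⟩

theorem levels [FiniteDimensional ℝ E] (hBase : Base E) (hS : SmallCodim E) : Levels E := by
  intro X m θ hm hX hcong hθ hθd hne
  set d := finrank ℝ E with hd
  have hd0 : (0 : ℝ) ≤ d := Nat.cast_nonneg _
  obtain ⟨x₀, hx₀, -⟩ := hX.dens 0
  have hθd' : 400 * (d + 1) * θ ≤ kap (d - 1) := hθd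
  have hθ80 : θ ≤ 1 / 80 := by
    have := kap_le (d - 1)
    nlinarith
  -- dimensions
  have hdim : ∀ κ : ℝ, 0 ≤ κ → ∀ x ∈ X, finrank ℝ (Dir X θ κ x) + 2 ≤ d := by
    intro κ hκ x hx
    obtain ⟨A, hA, hA1⟩ := hne x hx
    have h1 : (x, A) ∈ Fam X θ κ x := by
      refine ⟨hx, ?_, sym_mono (by linarith) hA⟩
      change ‖x - x‖ ≤ κ
      rw [sub_self, norm_zero]; exact hκ
    have h2 : Dir X θ κ x ≤ fixSpace A := fun v hv => hv _ h1
    have h3 := Submodule.finrank_mono h2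
    have h4 := hS A (fun v => by
      have := hA.2.1 v
      have h5 := norm_nonneg v
      nlinarith) hA1
    omega
  have hd2 : 2 ≤ d := by
    have := hdim 0 le_rfl x₀ hx₀
    omega
  -- nonempty
  have hnonempty : ∀ κ : ℝ, κ ≤ 1 / 4 → ∀ x ∈ X,
      ((LW X θ κ x : AffineSubspace ℝ E) : Set E).Nonempty := by
    intro κ hκ x hx
    obtain ⟨f, -, hf⟩ := base_app hBase hm hX.sep hθ (κ := 1 / 4) (s := 2 - κ) (t := κ)
      (by norm_num) (by norm_num) (by linarith [kap_le (d - 1)]) (by linarith) (by linarith) hx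
    exact ⟨f, fun g hg => hf g.1 hg.1 hg.2.1 g.2 hg.2.2⟩
  -- dimension is the same at all points
  have hdimeq : ∀ κ : ℝ, κ ≤ 2 → ∀ x ∈ X, ∀ y ∈ X,
      finrank ℝ (Dir X θ κ x) = finrank ℝ (Dir X θ κ y) := by
    intro κ hκ x hx y hy
    obtain ⟨B, hB⟩ := hcong x hx y hy
    obtain ⟨B', hB'⟩ := hcong y hy x hx
    exact le_antisymm (finrank_Dir_le hB' hκ) (finrank_Dir_le hB hκ)
  -- the plateau
  obtain ⟨j, hj, hfj⟩ := plateau (fun i => finrank ℝ (Dir X θ (kap i) x₀)) (by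
      intro i k hik
      apply Submodule.finrank_mono
      apply Dir_le
      rw [sub_self, norm_zero]
      linarith [kap_anti hik]) (d - 2) (by
      have h9 := hdim (kap (d - 2 + 1)) (kap_pos _).le x₀ hx₀
      change finrank ℝ (Dir X θ (kap (d - 2 + 1)) x₀) ≤ d - 2
      omega)
  have hfj' : finrank ℝ (Dir X θ (kap j) x₀) = finrank ℝ (Dir X θ (kap (j + 1)) x₀) := hfj
  have hκ0 := kap_pos j
  have hκ1 := kap_le j
  have hκ'0 := kap_pos (j + 1)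
  have hκ'1 := kap_le (j + 1)
  have hκ'2 := kap_succ_le j
  have hsq := kap_succ j
  have hκ'θ : 400 * (d + 1) * θ ≤ kap (j + 1) := hθd'.trans (kap_anti (by omega))
  generalize hκ'def : kap (j + 1) = κ' at *
  generalize hκdef : kap j = κ at *
  have heq : ∀ x ∈ X, LW X θ κ x = LW X θ κ' x := by
    intro x hx
    apply eq_LW (by linarith) (hnonempty κ hκ1 x hx)
    rw [hdimeq κ (by linarith) x hx x₀ hx₀, hfj', hdimeq κ' (by linarith) x₀ hx₀ x hx]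
  refine ⟨3 * κ', κ - κ', 2 * (d + 1), fun x => LW X θ κ' x, by linarith, by linarith, ?_, ?_, ?_,
    ?_⟩
  · have h1 : √(3 * κ') ≤ κ / 16 := by
      rw [Real.sqrt_le_left (by linarith), hsq]
      nlinarith [sq_nonneg κ]
    linarith
  · intro x hx
    obtain ⟨p, hp⟩ := hnonempty κ' hκ'1 x hx
    rw [LW_direction hp]
    exact hdim κ' hκ'0.le x hx
  · intro x hx y hy hxy
    change LW X θ κ' x = LW X θ κ' y
    apply le_antisymm
    · rw [← heq x hx]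
      apply LW_le
      rw [norm_sub_rev]; exact hxy
    · rw [← heq y hy]
      exact LW_le hxy
  · intro z hz
    obtain ⟨f, hf1, hf2⟩ := base_app hBase hm hX.sep hθ (κ := κ') (s := 2 - κ') (t := 2 - 2 * κ')
      hκ'0 (by linarith) hκ'θ (by linarith) (by linarith) hz
    refine ⟨f, hf1, fun x hx hxz g hg => hf2 g.1 hg.1 ?_ g.2 hg.2.2⟩
    have h1 : g.1 - z = (g.1 - x) + (x - z) := by abel
    rw [h1]
    have h2 := hg.2.1
    calc _ ≤ ‖g.1 - x‖ + ‖x - z‖ := norm_add_le _ _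
      _ ≤ _ := by linarith

end Pool.Agent.Helper31.Del
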