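import Pool.Agent.Helper65.Delone.A
import Pool.Agent.Helper65.Delone.Final

/-! The local criterion for regular systems. -/

namespace Pool.Agent.Helper31.Del

open Module Pool.Agent.Helper65.Delone Metric Set
open scoped RealInnerProductSpace

variable {E : Type*} [NormedAddCommGroup E] [InnerProductSpace ℝ E]

theorem Iso_mono {X : Set E} {L L' : ℝ} {x y : E} {A : E ≃ₗᵢ[ℝ] E} (hA : Iso X L x y A)
    (h : L' ≤ L) : Iso X L' x y A := fun v hv => hA v (hv.trans h)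

/-- a step of length at most `2R` towards a given point -/
theorem descent [FiniteDimensional ℝ E] {X : Set E} {D R : ℝ} (hD : 0 < D) (hR : 0 < R)
    (h : SepDense X D R) {s x : E} (hx : x ∈ X) (hne : s ≠ x) :
    ∃ y ∈ X, ‖y - s‖ ≤ 2 * R ∧ ‖y - x‖ < ‖s - x‖ := by
  rcases le_or_gt ‖x - s‖ (2 * R) with hle | hgt
  · refine ⟨x, hx, hle, ?_⟩
    rw [sub_self, norm_zero, norm_pos_iff, sub_ne_zero]; exact hne
  have hpos : 0 < ‖x - s‖ := by linarith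
  set ℓ := ‖x - s‖ with hℓ
  have hstep : ∀ ε : ℝ, 0 < ε → ε ≤ R → ∃ y ∈ X, ‖y - s‖ ≤ 2 * R + ε ∧ ‖y - x‖ < ‖s - x‖ := by
    intro ε hε hεR
    obtain ⟨y, hy, hyq⟩ := h.dens (s + ((R + ε) / ℓ) • (x - s))
    refine ⟨y, hy, ?_, ?_⟩
    · have h1 : y - s = -(s + ((R + ε) / ℓ) • (x - s) - y) + ((R + ε) / ℓ) • (x - s) := by abel
      rw [h1]
      have h2 : ‖((R + ε) / ℓ) • (x - s)‖ = R + ε := by
        rw [norm_smul, Real.norm_of_nonneg (by positivity), ← hℓ]; field_simp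
      calc _ ≤ ‖-(s + ((R + ε) / ℓ) • (x - s) - y)‖ + ‖((R + ε) / ℓ) • (x - s)‖ :=
            norm_add_le _ _
        _ ≤ _ := by rw [norm_neg, h2]; linarith
    · have h1 : y - x = -(s + ((R + ε) / ℓ) • (x - s) - y) + -((1 - (R + ε) / ℓ) • (x - s)) := by
        rw [sub_smul, one_smul]; abel
      have h3 : 0 ≤ 1 - (R + ε) / ℓ := by
        rw [sub_nonneg, div_le_one hpos]; linarith
      have h2 : ‖(1 - (R + ε) / ℓ) • (x - s)‖ = ℓ - (R + ε) := by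
        rw [norm_smul, Real.norm_of_nonneg h3, ← hℓ]; field_simp
      have h4 : ‖y - x‖ ≤ R + (ℓ - (R + ε)) := by
        rw [h1]
        calc _ ≤ ‖-(s + ((R + ε) / ℓ) • (x - s) - y)‖ + ‖-((1 - (R + ε) / ℓ) • (x - s))‖ :=
              norm_add_le _ _
          _ ≤ _ := by rw [norm_neg, norm_neg, h2]; linarith
      rw [norm_sub_rev s x, ← hℓ]
      linarith
  -- minimize the distance to `s`
  have hfin : {y | y ∈ X ∧ ‖y - x‖ < ‖s - x‖}.Finite := by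
    apply (finiteNear X D hD h.sep x ‖s - x‖).subset
    rintro y ⟨hy, hyn⟩
    refine ⟨hy, ?_⟩
    rw [norm_sub_rev]; exact hyn.le
  have hnonempty : {y | y ∈ X ∧ ‖y - x‖ < ‖s - x‖}.Nonempty := by
    obtain ⟨y, hy, -, hy2⟩ := hstep R hR le_rfl
    exact ⟨y, hy, hy2⟩
  obtain ⟨y, ⟨hy, hyx⟩, hmin⟩ := hfin.exists_minimalFor (fun y => ‖y - s‖) _ hnonempty
  refine ⟨y, hy, ?_, hyx⟩
  apply le_of_forall_pos_le_add
  intro ε hε
  obtain ⟨y', hy', h1, h2⟩ := hstep (min ε R) (lt_min hε hR) (min_le_right _ _)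
  have h3 : ‖y - s‖ ≤ ‖y' - s‖ := by
    rcases le_total ‖y - s‖ ‖y' - s‖ with h4 | h4
    · exact h4
    · exact hmin ⟨hy', h2⟩ h4
  have h5 := min_le_left ε R
  linarith

/-- points of `X` are connected by chains with steps of length at most `2R` -/
theorem chain_connected [FiniteDimensional ℝ E] {X : Set E} {D R : ℝ} (hD : 0 < D) (hR : 0 < R)
    (h : SepDense X D R) (P : E → Prop) {x₀ : E} (hx₀ : x₀ ∈ X) (h0 : P x₀)
    (hP : ∀ a ∈ X, ∀ b ∈ X, ‖b - a‖ ≤ 2 * R → P a → P b) : ∀ x ∈ X, P x := by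
  intro x hx
  have hfin : {y | y ∈ X ∧ ‖y - x‖ ≤ ‖x₀ - x‖ ∧ P y}.Finite := by
    apply (finiteNear X D hD h.sep x ‖x₀ - x‖).subset
    rintro y ⟨hy, hyn, -⟩
    refine ⟨hy, ?_⟩
    rw [norm_sub_rev]; exact hyn
  obtain ⟨s, ⟨hs, hsn, hPs⟩, hmin⟩ := hfin.exists_minimalFor (fun y => ‖y - x‖) _
    ⟨x₀, hx₀, le_rfl, h0⟩
  by_contra hcon
  have hne : s ≠ x := by
    rintro rfl
    exact hcon hPs
  obtain ⟨y, hy, hy1, hy2⟩ := descent hD hR h hx hne
  have h1 := hmin (j := y) ⟨hy, hy2.le.trans hsn, hP s hs y hy hy1 hPs⟩ hy2.le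
  have h2 : ‖s - x‖ ≤ ‖y - x‖ := h1
  linarith

/-- the local criterion -/
theorem local_criterion [FiniteDimensional ℝ E] {X : Set E} {D R L : ℝ} (hD : 0 < D) (hR : 0 < R)
    (hL : 0 ≤ L) (h : SepDense X D R)
    (hcong : ∀ x ∈ X, ∀ y ∈ X, ∃ B : E ≃ₗᵢ[ℝ] E, Iso X (L + 2 * R) x y B) {x₀ : E} (hx₀ : x₀ ∈ X)
    (hst : ∀ A : E ≃ₗᵢ[ℝ] E, Iso X L x₀ x₀ A → Iso X (L + 2 * R) x₀ x₀ A) {x y : E} (hx : x ∈ X)
    (hy : y ∈ X) : ∃ B : E ≃ₗᵢ[ℝ] E, ∀ v : E, x + v ∈ X ↔ y + B v ∈ X := by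
  have hL' : L ≤ L + 2 * R := by linarith
  -- (a)
  have ha : ∀ a ∈ X, ∀ b ∈ X, ∀ B : E ≃ₗᵢ[ℝ] E, Iso X L a b B → Iso X (L + 2 * R) a b B := by
    intro a ha b hb B hB
    obtain ⟨C₁, hC₁⟩ := hcong x₀ hx₀ a ha
    obtain ⟨C₂, hC₂⟩ := hcong x₀ hx₀ b hb
    have h1 : Iso X L x₀ x₀ (C₂.symm * (B * C₁)) :=
      ((Iso_mono hC₁ hL').trans hB).trans (Iso_mono hC₂ hL').symm
    have h2 := hst _ h1
    have h3 := (hC₁.symm.trans h2).trans hC₂
    have h4 : C₂ * (C₂.symm * (B * C₁) * C₁.symm) = B := by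
      ext v
      change C₂ (C₂.symm (B (C₁ (C₁.symm v)))) = B v
      rw [LinearIsometryEquiv.apply_symm_apply, LinearIsometryEquiv.apply_symm_apply]
    rwa [h4] at h3
  -- (b)
  have hb : ∀ x ∈ X, ∀ y ∈ X, ∀ B : E ≃ₗᵢ[ℝ] E, Iso X (L + 2 * R) x y B →
      ∀ x' ∈ X, y + B (x' - x) ∈ X ∧ Iso X (L + 2 * R) x' (y + B (x' - x)) B := by
    intro x hx y hy B hB
    refine chain_connected hD hR h
      (fun x' => y + B (x' - x) ∈ X ∧ Iso X (L + 2 * R) x' (y + B (x' - x)) B) hx ?_ ?_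
    · simp only [sub_self, map_zero, add_zero]; exact ⟨hy, hB⟩
    · rintro a hax b hbx hab ⟨h1, h2⟩
      have h3 : y + B (a - x) + B (b - a) = y + B (b - x) := by
        rw [add_assoc, ← map_add]; congr 2; abel
      have h4 : y + B (b - x) ∈ X := by
        have := (h2 (b - a) (by linarith)).1 (by rwa [add_sub_cancel])
        rwa [h3] at this
      refine ⟨h4, ha b hbx _ h4 B ?_⟩
      intro w hw
      have h5 := h2 (b - a + w) (by
        calc _ ≤ ‖b - a‖ + ‖w‖ := norm_add_le _ _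
          _ ≤ _ := by linarith)
      have h6 : a + (b - a + w) = b + w := by abel
      rw [h6, map_add, ← add_assoc, h3] at h5
      exact h5
  obtain ⟨B, hB⟩ := hcong x hx y hy
  refine ⟨B, fun v => ⟨fun hv => ?_, fun hv => ?_⟩⟩
  · have := (hb x hx y hy B hB (x + v) hv).1
    rwa [add_sub_cancel_left] at this
  · have := (hb y hy x hx B.symm hB.symm (y + B v) hv).1
    rwa [add_sub_cancel_left, LinearIsometryEquiv.symm_apply_apply] at this

end Pool.Agent.Helper31.Del
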