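import Pool.Agent.Helper31.Del.Jordan

/-! The regularity radius is `O(d ^ 2) R`. -/

namespace Pool.Agent.Helper31.Del

open Module Pool.Agent.Helper65.Delone Metric Set
open scoped RealInnerProductSpace

section

variable {E : Type} [NormedAddCommGroup E] [InnerProductSpace ℝ E] [FiniteDimensional ℝ E]

/-- the subgroup generated by the elements near the identity -/
def nearGroup (G : Subgroup (E ≃ₗᵢ[ℝ] E)) : Subgroup (E ≃ₗᵢ[ℝ] E) :=
  Subgroup.closure {g | g ∈ G ∧ Nr g (1 / 4)}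

theorem nearGroup_le (G : Subgroup (E ≃ₗᵢ[ℝ] E)) : nearGroup G ≤ G :=
  (Subgroup.closure_le G).2 fun _ hg => hg.1

theorem nearGroup_comm {G : Subgroup (E ≃ₗᵢ[ℝ] E)} {θ : ℝ} (hθ : 0 < θ)
    (hgap : ∀ A ∈ G, Nr A θ → A = 1) {a b : E ≃ₗᵢ[ℝ] E} (ha : a ∈ nearGroup G)
    (hb : b ∈ nearGroup G) : a * b = b * a := by
  have h1 : nearGroup G ≤ Subgroup.centralizer {g | g ∈ G ∧ Nr g (1 / 4)} := by
    rw [nearGroup, Subgroup.closure_le]
    intro g hg
    rw [SetLike.mem_coe, Subgroup.mem_centralizer_iff]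
    intro h hh
    exact near_commute hθ hgap hh.1 hg.1 hh.2 hg.2
  have h2 : nearGroup G ≤ Subgroup.centralizer (nearGroup G : Set (E ≃ₗᵢ[ℝ] E)) := by
    conv_lhs => rw [nearGroup]
    rw [Subgroup.closure_le]
    intro g hg
    rw [SetLike.mem_coe, Subgroup.mem_centralizer_iff]
    intro h hh
    have h3 := h1 hh
    rw [Subgroup.mem_centralizer_iff] at h3
    exact (h3 g hg).symm
  have h3 := h2 hb
  rw [Subgroup.mem_centralizer_iff] at h3
  exact h3 a ha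

/-- distance in operator norm -/
theorem norm_toCL_sub_ge {A B : E ≃ₗᵢ[ℝ] E} {θ : ℝ} (h : ¬ Nr (B.symm * A) θ) :
    θ ≤ ‖toCL A - toCL B‖ := by
  by_contra hcon
  push Not at hcon
  apply h
  intro v
  have h2 := (toCL A - toCL B).le_opNorm v
  have h3 : (toCL A - toCL B) v = A v - B v := rfl
  rw [h3] at h2
  have h4 : 0 ≤ ‖v‖ := norm_nonneg v
  have h8 : (B.symm * A) v - v = B.symm (A v - B v) := by
    rw [map_sub, LinearIsometryEquiv.symm_apply_apply]; rfl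
  rw [h8, LinearIsometryEquiv.norm_map]
  nlinarith

theorem norm_toCL_le (A : E ≃ₗᵢ[ℝ] E) : ‖toCL A‖ ≤ 1 := by
  apply ContinuousLinearMap.opNorm_le_bound _ zero_le_one
  intro v
  rw [toCL_apply, LinearIsometryEquiv.norm_map, one_mul]

theorem toCL_injective : Function.Injective (toCL : (E ≃ₗᵢ[ℝ] E) → (E →L[ℝ] E)) := by
  intro A B h
  ext v
  exact congrArg (fun F : E →L[ℝ] E => F v) h

theorem packing_sub {V : Type*} [NormedAddCommGroup V] [NormedSpace ℝ V] [FiniteDimensional ℝ V]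
    (W : Submodule ℝ V) (s : Finset W) (ε : ℝ) (hε : 0 < ε) (hs : ∀ c ∈ s, ‖(c : V)‖ ≤ 1)
    (h : ∀ c ∈ s, ∀ d ∈ s, c ≠ d → ε ≤ ‖(c : V) - d‖) :
    (s.card : ℝ) ≤ (1 + 2 / ε) ^ finrank ℝ W :=
  packing_gen (V := W) s ε hε hs h

/-- counting in a commutative group with a gap -/
theorem card_comm {S : Set (E ≃ₗᵢ[ℝ] E)} {θ : ℝ} (hθ : 0 < θ)
    (hcomm : ∀ a ∈ S, ∀ b ∈ S, a * b = b * a)
    (hgap : ∀ A ∈ S, ∀ B ∈ S, Nr (B.symm * A) θ → A = B)
    (s : Finset (E ≃ₗᵢ[ℝ] E)) (hs : ∀ A ∈ s, A ∈ S) :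
    (s.card : ℝ) ≤ (1 + 2 / θ) ^ finrank ℝ E := by
  classical
  let 𝒜 := Subalgebra.toSubmodule (Algebra.adjoin ℝ (toCL '' S))
  have hmem : ∀ A ∈ s, toCL A ∈ 𝒜 := fun A hA =>
    Algebra.subset_adjoin ⟨A, hs A hA, rfl⟩
  let f : s → 𝒜 := fun A => ⟨toCL A.1, hmem A.1 A.2⟩
  have hf : Function.Injective f := by
    intro A B h
    exact Subtype.ext (toCL_injective (congrArg Subtype.val h))
  have h1 : (Finset.univ.image f).card = s.card := by
    rw [Finset.card_image_of_injective _ hf, Finset.card_univ, Fintype.card_coe]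
  have h2 : ((Finset.univ.image f).card : ℝ) ≤ (1 + 2 / θ) ^ finrank ℝ 𝒜 := by
    apply packing_sub 𝒜 _ _ hθ
    · intro c hc
      rw [Finset.mem_image] at hc
      obtain ⟨A, -, rfl⟩ := hc
      exact norm_toCL_le A.1
    · intro c hc d hd hne
      rw [Finset.mem_image] at hc hd
      obtain ⟨A, -, rfl⟩ := hc
      obtain ⟨B, -, rfl⟩ := hd
      apply norm_toCL_sub_ge (A := A.1) (B := B.1)
      intro hN
      apply hne
      have h3 := hgap _ (hs _ A.2) _ (hs _ B.2) hN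
      rw [Subtype.ext h3]
  rw [← h1]
  refine h2.trans ?_
  have h3 : finrank ℝ 𝒜 ≤ finrank ℝ E := comm_span_finrank S hcomm
  apply pow_le_pow_right₀ _ h3
  have : 0 < 2 / θ := by positivity
  linarith

/-- Jordan's theorem for groups with a gap -/
theorem card_le_jordan {G : Subgroup (E ≃ₗᵢ[ℝ] E)} [Finite G] {θ : ℝ} (hθ : 0 < θ)
    (hgap : ∀ A ∈ G, Nr A θ → A = 1) (M : ℕ) (hM : 1 + 2 / θ ≤ M) :
    Nat.card G ≤ 9 ^ (finrank ℝ E ^ 2) * M ^ finrank ℝ E := by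
  classical
  set A₀ := nearGroup G with hA₀
  have hA₀G : A₀ ≤ G := nearGroup_le G
  let K : Subgroup G := A₀.subgroupOf G
  have hK : Nat.card G = Nat.card (G ⧸ K) * Nat.card K := Subgroup.card_eq_card_quotient_mul_card_subgroup K
  have hKA : Nat.card K = Nat.card A₀ := Nat.card_congr (Subgroup.subgroupOfEquivOfLe hA₀G).toEquiv
  have h1 : Nat.card A₀ ≤ M ^ finrank ℝ E := by
    refine (finite_of_bound (α := A₀) ?_).2
    intro s
    have h2 := card_comm (S := (A₀ : Set (E ≃ₗᵢ[ℝ] E))) hθ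
      (fun a ha b hb => nearGroup_comm hθ hgap ha hb) (by
      intro A hA B hB hN
      have h3 := hgap (B.symm * A) (G.mul_mem (G.inv_mem (hA₀G hB)) (hA₀G hA)) hN
      have h4 : A = B * (B.symm * A) := by
        ext v
        change A v = B (B.symm (A v))
        rw [LinearIsometryEquiv.apply_symm_apply]
      rw [h4, h3, mul_one]) (s.image Subtype.val) (by
      intro A hA
      rw [Finset.mem_image] at hA
      obtain ⟨g, -, rfl⟩ := hA
      exact g.2)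
    rw [Finset.card_image_of_injective _ Subtype.val_injective] at h2
    have h5 : (s.card : ℝ) ≤ (M : ℝ) ^ finrank ℝ E :=
      h2.trans (pow_le_pow_left₀ (by positivity) hM _)
    exact_mod_cast h5
  have h2 : Nat.card (G ⧸ K) ≤ 9 ^ (finrank ℝ E ^ 2) := by
    refine (finite_of_bound (α := G ⧸ K) ?_).2
    intro s
    let f : G ⧸ K → (E ≃ₗᵢ[ℝ] E) := fun q => (Quotient.out q : G).1
    have hf : ∀ q q' : G ⧸ K, Nr ((f q').symm * f q) (1 / 4) → q = q' := by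
      intro q q' hN
      have h3 : (Quotient.out q')⁻¹ * (Quotient.out q) ∈ K := by
        rw [Subgroup.mem_subgroupOf]
        apply Subgroup.subset_closure
        exact ⟨((Quotient.out q')⁻¹ * (Quotient.out q)).2, hN⟩
      have h4 : (QuotientGroup.mk (Quotient.out q') : G ⧸ K) = QuotientGroup.mk (Quotient.out q) :=
        QuotientGroup.eq.2 h3
      rw [QuotientGroup.out_eq', QuotientGroup.out_eq'] at h4
      exact h4.symm
    have hfi : Function.Injective f := by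
      intro q q' h
      apply hf
      rw [h]
      intro v
      change ‖(f q').symm ((f q') v) - v‖ ≤ _
      rw [LinearIsometryEquiv.symm_apply_apply, sub_self, norm_zero]
      positivity
    have h3 := card_le_of_gap (S := Set.range f) (θ := 1 / 4) (by norm_num) (by
      rintro _ ⟨q, rfl⟩ _ ⟨q', rfl⟩ hN
      rw [hf q q' hN]
      ext v
      change (f q').symm ((f q') v) = v
      rw [LinearIsometryEquiv.symm_apply_apply]) (s.image f) (by
      intro A hA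
      rw [Finset.mem_image] at hA
      obtain ⟨g, -, rfl⟩ := hA
      exact ⟨g, rfl⟩)
    rw [Finset.card_image_of_injective _ hfi] at h3
    have h4 : (1 + 2 / (1 / 4) : ℝ) = 9 := by norm_num
    rw [h4] at h3
    exact_mod_cast h3
  rw [hK, hKA]
  exact Nat.mul_le_mul h2 h1

theorem quad_main {X : Set E} {D R ρ : ℝ} (hD : 0 < D) (hR : 0 < R) (h : SepDense X D R)
    (hd : 1 ≤ finrank ℝ E) (hρ : 40 * (finrank ℝ E : ℝ) ^ 2 * R ≤ ρ)
    (hcong : ∀ x ∈ X, ∀ y ∈ X, ∃ B : E ≃ₗᵢ[ℝ] E, Iso X ρ x y B) {x y : E} (hx : x ∈ X)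
    (hy : y ∈ X) : ∃ B : E ≃ₗᵢ[ℝ] E, ∀ v : E, x + v ∈ X ↔ y + B v ∈ X := by
  classical
  set d := finrank ℝ E with hddef
  obtain ⟨J, hJdef⟩ : ∃ J : ℕ, J = 17 * d ^ 2 + 1 := ⟨_, rfl⟩
  have hdR : (1 : ℝ) ≤ d := by exact_mod_cast hd
  have hJR : (J : ℝ) = 17 * (d : ℝ) ^ 2 + 1 := by rw [hJdef]; push_cast; ring
  have hρJ : 4 * R + 2 * R * J ≤ ρ := by
    refine le_trans ?_ hρ
    rw [hJR]
    nlinarith [mul_pos hR hR, mul_nonneg hR.le (sq_nonneg ((d : ℝ) - 1))]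
  have hJ0 : (0 : ℝ) ≤ J := Nat.cast_nonneg _
  have hcong4 : ∀ x ∈ X, ∀ y ∈ X, ∃ B : E ≃ₗᵢ[ℝ] E, Iso X (4 * R) x y B := by
    intro a ha b hb
    obtain ⟨B, hB⟩ := hcong a ha b hb
    refine ⟨B, Iso_mono hB ?_⟩
    have : 0 ≤ 2 * R * J := by positivity
    linarith
  obtain ⟨θ, hθdef⟩ : ∃ θ : ℝ, θ = 1 / (800 * (d + 1)) := ⟨_, rfl⟩
  have hd0 : (0 : ℝ) ≤ d := Nat.cast_nonneg _
  have hθ0 : 0 < θ := by rw [hθdef]; positivity
  have hθ1 : 800 * ((d : ℝ) + 1) * θ = 1 := by rw [hθdef]; field_simp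
  have hθ2 : 1 + 2 / θ = ((1 + 1600 * (d + 1) : ℕ) : ℝ) := by
    rw [hθdef]; push_cast; field_simp; ring
  let H : ℕ → Subgroup (E ≃ₗᵢ[ℝ] E) := fun j => GIso X x (4 * R + 2 * R * j)
  have hgap : ∀ A ∈ H 0, Nr A θ → A = 1 := by
    intro A hA hN
    have h2 : Iso X (4 * R + 2 * R * ((0 : ℕ) : ℝ)) x x A := hA
    rw [Nat.cast_zero, mul_zero, add_zero] at h2
    exact gap_four hD hR h hcong4 hθ0.le hθ1.le hx h2 hN
  -- finiteness of the group
  have hfin : Finite (H 0) := by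
    refine (finite_of_bound (N := ⌊(1 + 2 / θ) ^ (d ^ 2)⌋₊) ?_).1
    intro s
    have h1 := card_le_of_gap (S := {A | Iso X (4 * R) x x A}) hθ0 (by
      intro A hA B hB hN
      exact gap_four hD hR h hcong4 hθ0.le hθ1.le hx (Iso.trans hA (Iso.symm hB)) hN)
      (s.image Subtype.val) (by
      intro A hA
      rw [Finset.mem_image] at hA
      obtain ⟨g, -, rfl⟩ := hA
      have h2 : Iso X (4 * R + 2 * R * ((0 : ℕ) : ℝ)) x x g.1 := g.2
      rwa [Nat.cast_zero, mul_zero, add_zero] at h2)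
    rw [Finset.card_image_of_injective _ Subtype.val_injective] at h1
    exact Nat.le_floor h1
  have hcard : Nat.card (H 0) < 2 ^ J := by
    have h1 := card_le_jordan (G := H 0) hθ0 hgap (1 + 1600 * (d + 1)) hθ2.le
    have h2 : 9 ^ (d ^ 2) ≤ 2 ^ (4 * d ^ 2) := by
      rw [pow_mul]; exact Nat.pow_le_pow_left (by norm_num) _
    have h3 : (1 + 1600 * (d + 1)) ^ d ≤ 2 ^ (13 * d ^ 2) := by
      have h4 : 1 + 1600 * (d + 1) ≤ 2 ^ (13 * d) := by
        have h5 : d < 2 ^ d := Nat.lt_two_pow_self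
        calc 1 + 1600 * (d + 1) ≤ 2 ^ 12 * d := by omega
          _ ≤ 2 ^ 12 * 2 ^ d := Nat.mul_le_mul_left _ h5.le
          _ = 2 ^ (12 + d) := by rw [pow_add]
          _ ≤ 2 ^ (13 * d) := Nat.pow_le_pow_right (by norm_num) (by omega)
      calc (1 + 1600 * (d + 1)) ^ d ≤ (2 ^ (13 * d)) ^ d := Nat.pow_le_pow_left h4 _
        _ = 2 ^ (13 * d ^ 2) := by rw [← pow_mul]; congr 1; ring
    calc Nat.card (H 0) ≤ 9 ^ (d ^ 2) * (1 + 1600 * (d + 1)) ^ d := h1
      _ ≤ 2 ^ (4 * d ^ 2) * 2 ^ (13 * d ^ 2) := Nat.mul_le_mul h2 h3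
      _ = 2 ^ (17 * d ^ 2) := by rw [← pow_add]; congr 1; ring
      _ < 2 ^ J := by rw [hJdef]; exact Nat.pow_lt_pow_right (by norm_num) (by omega)
  obtain ⟨j, hj, hjj⟩ := tower H (by
    intro j A hA
    apply Iso_mono (L := 4 * R + 2 * R * ((j + 1 : ℕ) : ℝ)) hA
    push_cast
    linarith) J hfin hcard
  have hjR : (j : ℝ) + 1 ≤ J := by exact_mod_cast hj
  have hj0 : (0 : ℝ) ≤ j := Nat.cast_nonneg _
  have hL : (4 * R + 2 * R * j) + 2 * R ≤ ρ := by nlinarith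
  apply local_criterion hD hR (L := 4 * R + 2 * R * j) (by positivity) h (by
    intro a ha b hb
    obtain ⟨B, hB⟩ := hcong a ha b hb
    exact ⟨B, Iso_mono hB hL⟩) hx (by
    intro A hA
    have h5 : A ∈ H j := hA
    rw [hjj] at h5
    have h6 : Iso X (4 * R + 2 * R * ((j + 1 : ℕ) : ℝ)) x x A := h5
    apply Iso_mono h6
    push_cast
    linarith) hx hy

end

end Pool.Agent.Helper31.Del
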