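import Pool.Agent.Helper31.Del.Quad

namespace Pool.Agent.Helper31.Del.QuadStmt

/-- In dimension `d ≥ 1` every Delone set (distinct points at distance at least `r > 0`, every
point of space within `R` of the set) whose `ρ`-clusters are all congruent for some
`ρ ≥ 40 * d ^ 2 * R` is regular: its symmetry group is transitive. -/
theorem quadratic_bound (d : ℕ) (hd : 1 ≤ d) (R ρ : ℝ) (hR : 0 < R) (hρ : 40 * (d : ℝ) ^ 2 * R ≤ ρ)
    (X : Set (EuclideanSpace ℝ (Fin d)))
    (hsep : ∃ r : ℝ, 0 < r ∧ ∀ x ∈ X, ∀ y ∈ X, x ≠ y → r ≤ dist x y)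
    (hdens : ∀ z : EuclideanSpace ℝ (Fin d), ∃ x ∈ X, dist z x ≤ R)
    (hcong : ∀ x ∈ X, ∀ y ∈ X, ∃ g : EuclideanSpace ℝ (Fin d) ≃ᵢ EuclideanSpace ℝ (Fin d),
      g x = y ∧ g '' (X ∩ Metric.closedBall x ρ) = X ∩ Metric.closedBall y ρ) :
    ∀ x ∈ X, ∀ y ∈ X, ∃ g : EuclideanSpace ℝ (Fin d) ≃ᵢ EuclideanSpace ℝ (Fin d),
      g x = y ∧ g '' X = X := by
  intro x hx y hy
  obtain ⟨r, hr, hsep⟩ := hsep
  have hX : Pool.Agent.Helper65.Delone.SepDense X r R := by
    constructor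
    · intro a ha b hb hab
      rw [← dist_eq_norm]; exact hsep a ha b hb hab
    · intro q
      obtain ⟨a, ha, hq⟩ := hdens q
      exact ⟨a, ha, by rw [← dist_eq_norm]; exact hq⟩
  have hfr : Module.finrank ℝ (EuclideanSpace ℝ (Fin d)) = d := by simp
  obtain ⟨B, hB⟩ := Pool.Agent.Helper31.Del.quad_main hr hR hX (by rw [hfr]; exact hd)
    (ρ := ρ) (by rw [hfr]; exact hρ) (by
      intro a ha b hb
      obtain ⟨g, hg, hgc⟩ := hcong a ha b hb
      exact ⟨_, Pool.Agent.Helper65.Delone.lin_iso hg hgc⟩) hx hy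
  refine ⟨((IsometryEquiv.addLeft (-x)).trans B.toIsometryEquiv).trans (IsometryEquiv.addLeft y),
    ?_, ?_⟩
  · change y + B (-x + x) = y
    rw [neg_add_cancel, map_zero, add_zero]
  · ext p
    constructor
    · rintro ⟨q, hq, rfl⟩
      change y + B (-x + q) ∈ X
      rw [← hB, add_neg_cancel_left]
      exact hq
    · intro hp
      refine ⟨x + B.symm (p - y), ?_, ?_⟩
      · rw [hB, LinearIsometryEquiv.apply_symm_apply, add_sub_cancel]
        exact hp
      · change y + B (-x + (x + B.symm (p - y))) = p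
        rw [neg_add_cancel_left, LinearIsometryEquiv.apply_symm_apply, add_sub_cancel]

end Pool.Agent.Helper31.Del.QuadStmt
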