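import Pool.Agent.Helper31.Del.Gap4
import Pool.Agent.Helper31.Del.Local

/-! The regularity radius is `O(d ^ 2 log d) R`. -/

namespace Pool.Agent.Helper31.Del

open Module Pool.Agent.Helper65.Delone Metric Set
open scoped RealInnerProductSpace

/-- a decreasing chain of subgroups of a small finite group has a repetition -/
theorem tower {G : Type*} [Group G] (H : ℕ → Subgroup G) (hH : ∀ j, H (j + 1) ≤ H j) (J : ℕ)
    (hfin : Finite (H 0)) (hJ : Nat.card (H 0) < 2 ^ J) : ∃ j < J, H j = H (j + 1) := by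
  by_contra hcon
  push Not at hcon
  have hanti : ∀ j, H j ≤ H 0 := by
    intro j
    induction j with
    | zero => exact le_rfl
    | succ n ih => exact (hH n).trans ih
  have hfin' : ∀ j, Finite (H j) := fun j =>
    Finite.of_injective _ (Subgroup.inclusion_injective (hanti j))
  have h1 : ∀ j ≤ J, 2 ^ j * Nat.card (H j) ≤ Nat.card (H 0) := by
    intro j
    induction j with
    | zero => intro _; simp
    | succ n ih =>
      intro hn
      have h2 := ih (by omega)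
      have h3 := hcon n (by omega)
      have := hfin' n
      have := hfin' (n + 1)
      have h4 : 2 * Nat.card (H (n + 1)) ≤ Nat.card (H n) := by
        obtain ⟨k, hk⟩ := Subgroup.card_dvd_of_le (hH n)
        have h5 : 0 < Nat.card (H n) := Nat.card_pos
        have h6 : 0 < Nat.card (H (n + 1)) := Nat.card_pos
        rcases k with _ | _ | k
        · rw [mul_zero] at hk; omega
        · exfalso
          apply h3
          symm
          apply Subgroup.eq_of_le_of_card_ge (hH n)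
          rw [hk]; omega
        · rw [hk]; nlinarith
      calc 2 ^ (n + 1) * Nat.card (H (n + 1)) = 2 ^ n * (2 * Nat.card (H (n + 1))) := by ring
        _ ≤ 2 ^ n * Nat.card (H n) := Nat.mul_le_mul_left _ h4
        _ ≤ _ := h2
  have h7 := h1 J le_rfl
  have := hfin' J
  have h8 : 0 < Nat.card (H J) := Nat.card_pos
  have h9 : 2 ^ J * 1 ≤ 2 ^ J * Nat.card (H J) := Nat.mul_le_mul_left _ h8
  omega

/-- the cluster group in vector form -/
def GIso {E : Type*} [NormedAddCommGroup E] [InnerProductSpace ℝ E] (X : Set E) (x : E) (L : ℝ) :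
    Subgroup (E ≃ₗᵢ[ℝ] E) where
  carrier := {A | Iso X L x x A}
  mul_mem' := by
    intro a b ha hb
    exact Iso.trans hb ha
  one_mem' := fun v _ => Iff.rfl
  inv_mem' := by
    intro a ha
    exact Iso.symm ha

theorem mem_GIso {E : Type*} [NormedAddCommGroup E] [InnerProductSpace ℝ E] {X : Set E} {x : E}
    {L : ℝ} {A : E ≃ₗᵢ[ℝ] E} : A ∈ GIso X x L ↔ Iso X L x x A := Iff.rfl

theorem weak_numeric {d : ℕ} (hd : 2 ≤ d) : ∃ J : ℕ,
    ((1 : ℝ) + 1600 * (d + 1)) ^ (d ^ 2) < 2 ^ J ∧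
      (4 : ℝ) + 2 * J ≤ 100 * ((d : ℝ) ^ 2 * Real.log d) := by
  let a := Nat.clog 2 d
  have ha1 : d ≤ 2 ^ a := Nat.le_pow_clog (by norm_num) d
  have ha2 : 2 ^ (a - 1) < d := Nat.pow_pred_clog_lt_self (by norm_num) (by omega)
  have ha0 : 1 ≤ a := by
    by_contra hcon
    have : a = 0 := by omega
    rw [this] at ha1
    omega
  have hdR : (2 : ℝ) ≤ d := by exact_mod_cast hd
  have hlog2 : 0.6931471803 < Real.log 2 := Real.log_two_gt_d9
  have hlogd : Real.log 2 ≤ Real.log d := Real.log_le_log (by norm_num) hdR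
  have ha3 : (a : ℝ) ≤ 3 * Real.log d := by
    have h1 : ((2 : ℝ)) ^ (a - 1) ≤ d := by exact_mod_cast ha2.le
    have h2 := Real.log_le_log (by positivity) h1
    rw [Real.log_pow] at h2
    have h3 : ((a - 1 : ℕ) : ℝ) = a - 1 := by push_cast [ha0]; ring
    rw [h3] at h2
    nlinarith
  have hbase : ((1 : ℝ) + 1600 * (d + 1)) ≤ 2 ^ (13 * a) := by
    have h1 : 1 + 1600 * (d + 1) ≤ 2 ^ 12 * 2 ^ a := by
      have : 1 + 1600 * (d + 1) ≤ 2401 * d := by omega
      calc _ ≤ 2401 * d := this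
        _ ≤ 2 ^ 12 * 2 ^ a := Nat.mul_le_mul (by norm_num) ha1
    have h2 : 2 ^ 12 * 2 ^ a ≤ 2 ^ (13 * a) := by
      rw [← pow_add]
      exact Nat.pow_le_pow_right (by norm_num) (by omega)
    exact_mod_cast h1.trans h2
  refine ⟨13 * a * d ^ 2 + 1, ?_, ?_⟩
  · calc ((1 : ℝ) + 1600 * (d + 1)) ^ (d ^ 2) ≤ (2 ^ (13 * a)) ^ (d ^ 2) :=
          pow_le_pow_left₀ (by positivity) hbase _
      _ = 2 ^ (13 * a * d ^ 2) := by rw [← pow_mul]
      _ < 2 ^ (13 * a * d ^ 2 + 1) := pow_lt_pow_right₀ (by norm_num) (by omega)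
  · push_cast
    have h4 : (4 : ℝ) ≤ (d : ℝ) ^ 2 := by nlinarith
    have h5 : (d : ℝ) ^ 2 * a ≤ (d : ℝ) ^ 2 * (3 * Real.log d) := by
      apply mul_le_mul_of_nonneg_left ha3 (by positivity)
    have h6 : (2 : ℝ) ≤ (d : ℝ) ^ 2 * Real.log d := by nlinarith
    nlinarith

section

variable {E : Type} [NormedAddCommGroup E] [InnerProductSpace ℝ E] [FiniteDimensional ℝ E]

theorem weak_main {X : Set E} {D R ρ : ℝ} (hD : 0 < D) (hR : 0 < R) (h : SepDense X D R)
    (hd : 2 ≤ finrank ℝ E)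
    (hρ : 100 * ((finrank ℝ E : ℝ) ^ 2 * Real.log (finrank ℝ E)) * R ≤ ρ)
    (hcong : ∀ x ∈ X, ∀ y ∈ X, ∃ B : E ≃ₗᵢ[ℝ] E, Iso X ρ x y B) {x y : E} (hx : x ∈ X)
    (hy : y ∈ X) : ∃ B : E ≃ₗᵢ[ℝ] E, ∀ v : E, x + v ∈ X ↔ y + B v ∈ X := by
  classical
  obtain ⟨J, hJ1, hJ2⟩ := weak_numeric hd
  set d := finrank ℝ E with hddef
  have hρJ : 4 * R + 2 * R * J ≤ ρ := by
    refine le_trans ?_ hρ
    have := mul_le_mul_of_nonneg_right hJ2 hR.le
    linarith
  have hJ0 : (0 : ℝ) ≤ J := Nat.cast_nonneg _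
  have hcong4 : ∀ x ∈ X, ∀ y ∈ X, ∃ B : E ≃ₗᵢ[ℝ] E, Iso X (4 * R) x y B := by
    intro a ha b hb
    obtain ⟨B, hB⟩ := hcong a ha b hb
    refine ⟨B, Iso_mono hB ?_⟩
    have : 0 ≤ 2 * R * J := by positivity
    linarith
  obtain ⟨θ, hθdef⟩ : ∃ θ : ℝ, θ = 1 / (800 * (d + 1)) := ⟨_, rfl⟩
  have hd0 : (0 : ℝ) ≤ d := Nat.cast_nonneg _
  have hθ0 : 0 < θ := by rw [hθdef]; positivity
  have hθ1 : 800 * ((d : ℝ) + 1) * θ = 1 := by rw [hθdef]; field_simp
  have hθ2 : 1 + 2 / θ = 1 + 1600 * (d + 1) := by rw [hθdef]; field_simp; ring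
  let H : ℕ → Subgroup (E ≃ₗᵢ[ℝ] E) := fun j => GIso X x (4 * R + 2 * R * j)
  have hcard : Finite (H 0) ∧ Nat.card (H 0) ≤ 2 ^ J - 1 := by
    apply finite_of_bound
    intro s
    have h1 := card_le_of_gap (S := {A | Iso X (4 * R) x x A}) hθ0 (by
      intro A hA B hB hN
      exact gap_four hD hR h hcong4 hθ0.le hθ1.le hx (Iso.trans hA (Iso.symm hB)) hN)
      (s.image Subtype.val) (by
      intro A hA
      rw [Finset.mem_image] at hA
      obtain ⟨g, -, rfl⟩ := hA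
      have h2 : Iso X (4 * R + 2 * R * ((0 : ℕ) : ℝ)) x x g.1 := g.2
      rwa [Nat.cast_zero, mul_zero, add_zero] at h2)
    rw [Finset.card_image_of_injective _ Subtype.val_injective, hθ2] at h1
    have h3 : (s.card : ℝ) < 2 ^ J := lt_of_le_of_lt h1 hJ1
    have h4 : s.card < 2 ^ J := by exact_mod_cast h3
    omega
  have h2J : 0 < 2 ^ J := by positivity
  obtain ⟨j, hj, hjj⟩ := tower H (by
    intro j A hA
    apply Iso_mono (L := 4 * R + 2 * R * ((j + 1 : ℕ) : ℝ)) hA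
    push_cast
    linarith) J hcard.1 (by omega)
  have hjR : (j : ℝ) + 1 ≤ J := by exact_mod_cast hj
  have hj0 : (0 : ℝ) ≤ j := Nat.cast_nonneg _
  have hL : (4 * R + 2 * R * j) + 2 * R ≤ ρ := by nlinarith
  apply local_criterion hD hR (L := 4 * R + 2 * R * j) (by positivity) h (by
    intro a ha b hb
    obtain ⟨B, hB⟩ := hcong a ha b hb
    exact ⟨B, Iso_mono hB hL⟩) hx (by
    intro A hA
    have h5 : A ∈ H j := hA
    rw [hjj] at h5
    have h6 : Iso X (4 * R + 2 * R * ((j + 1 : ℕ) : ℝ)) x x A := h5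
    apply Iso_mono h6
    push_cast
    linarith) hx hy

end

end Pool.Agent.Helper31.Del
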