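
import Pool.Agent.Helper31.Del.Weak

set_option autoImplicit false


namespace Pool.Agent.Helper31.Del.WeakConj

/-- There is a constant c such that for all d ≥ 2, every Delone set in R^d with covering radius R whose ρ-clusters are all congruent, for some ρ > c·d²·log d·R, is a regular system (its symmetry group is transitive). -/
theorem weak_conjecture :
    ∃ c : ℝ, ∀ d : ℕ, 2 ≤ d → ∀ R : ℝ, 0 < R → ∀ ρ : ℝ,
      c * ((d : ℝ) ^ 2 * Real.log (d : ℝ)) * R < ρ →
      ∀ X : Set (EuclideanSpace ℝ (Fin d)),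
        (∃ r : ℝ, 0 < r ∧ ∀ x ∈ X, ∀ y ∈ X, x ≠ y → r ≤ dist x y) →
        (∀ p : EuclideanSpace ℝ (Fin d), ∃ x ∈ X, dist p x ≤ R) →
        (∀ x ∈ X, ∀ y ∈ X, ∃ g : EuclideanSpace ℝ (Fin d) ≃ᵢ EuclideanSpace ℝ (Fin d),
            g x = y ∧ g '' (X ∩ Metric.closedBall x ρ) = X ∩ Metric.closedBall y ρ) →
        ∀ x ∈ X, ∀ y ∈ X, ∃ g : EuclideanSpace ℝ (Fin d) ≃ᵢ EuclideanSpace ℝ (Fin d),
            g x = y ∧ g '' X = X := by
  refine ⟨100, ?_⟩
  intro d hd R hR ρ hρ X hsep hdens hcong x hx y hy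
  obtain ⟨r, hr, hsep⟩ := hsep
  have hX : Pool.Agent.Helper65.Delone.SepDense X r R := by
    constructor
    · intro a ha b hb hab
      rw [← dist_eq_norm]; exact hsep a ha b hb hab
    · intro q
      obtain ⟨a, ha, hq⟩ := hdens q
      exact ⟨a, ha, by rw [← dist_eq_norm]; exact hq⟩
  have hfr : Module.finrank ℝ (EuclideanSpace ℝ (Fin d)) = d := by simp
  obtain ⟨B, hB⟩ := Pool.Agent.Helper31.Del.weak_main hr hR hX (by rw [hfr]; exact hd)
    (ρ := ρ) (by rw [hfr]; exact hρ.le) (by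
      intro a ha b hb
      obtain ⟨g, hg, hgc⟩ := hcong a ha b hb
      exact ⟨_, Pool.Agent.Helper65.Delone.lin_iso hg hgc⟩) hx hy
  refine ⟨((IsometryEquiv.addLeft (-x)).trans B.toIsometryEquiv).trans (IsometryEquiv.addLeft y),
    ?_, ?_⟩
  · change y + B (-x + x) = y
    rw [neg_add_cancel, map_zero, add_zero]
  · ext p
    constructor
    · rintro ⟨q, hq, rfl⟩
      change y + B (-x + q) ∈ X
      rw [← hB, add_neg_cancel_left]
      exact hq
    · intro hp
      refine ⟨x + B.symm (p - y), ?_, ?_⟩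
      · rw [hB, LinearIsometryEquiv.apply_symm_apply, add_sub_cancel]
        exact hp
      · change y + B (-x + (x + B.symm (p - y))) = p
        rw [neg_add_cancel_left, LinearIsometryEquiv.apply_symm_apply, add_sub_cancel]

end Pool.Agent.Helper31.Del.WeakConj
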